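import Mathlib

/-!
# `C_h[g]`-sets: definitions
-/

set_option autoImplicit false

namespace Pool.Agent.Y357.C33

/-- `A ⊆ Γ` is a `C_h[g]`-set: no `h`-element set `X` has `g` distinct translates inside `A`. -/
def IsCSet {Γ : Type*} [AddCommGroup Γ] (h g : ℕ) (A : Set Γ) : Prop :=
  ¬ ∃ X K : Finset Γ, X.card = h ∧ K.card = g ∧ ∀ k ∈ K, ∀ x ∈ X, x + k ∈ A

/-- `F g n`: the largest size of a `C_3[g]`-set in `{1, …, n}`. -/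
noncomputable def F (g n : ℕ) : ℕ :=
  sSup {a | ∃ A : Finset ℤ, A ⊆ Finset.Icc 1 (n : ℤ) ∧ IsCSet 3 g (A : Set ℤ) ∧ A.card = a}

theorem F_bdd (g n : ℕ) :
    BddAbove {a | ∃ A : Finset ℤ, A ⊆ Finset.Icc 1 (n : ℤ) ∧ IsCSet 3 g (A : Set ℤ) ∧
      A.card = a} := by
  refine ⟨n, ?_⟩
  rintro a ⟨A, hA, -, rfl⟩
  have := Finset.card_le_card hA
  simpa using this

theorem isCSet_empty {Γ : Type*} [AddCommGroup Γ] {g : ℕ} (hg : 1 ≤ g) :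
    IsCSet 3 g (∅ : Set Γ) := by
  rintro ⟨X, K, hX, hK, hXK⟩
  obtain ⟨x, hx⟩ : X.Nonempty := Finset.card_pos.1 (by omega)
  obtain ⟨k, hk⟩ : K.Nonempty := Finset.card_pos.1 (by omega)
  simpa using hXK k hk x hx

theorem le_F {g n : ℕ} {A : Finset ℤ} (hA : A ⊆ Finset.Icc 1 (n : ℤ))
    (h : IsCSet 3 g (A : Set ℤ)) : A.card ≤ F g n :=
  le_csSup (F_bdd g n) ⟨A, hA, h, rfl⟩

theorem F_mem {g : ℕ} (hg : 1 ≤ g) (n : ℕ) : ∃ A : Finset ℤ, A ⊆ Finset.Icc 1 (n : ℤ) ∧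
    IsCSet 3 g (A : Set ℤ) ∧ A.card = F g n := by
  have hne : {a | ∃ A : Finset ℤ, A ⊆ Finset.Icc 1 (n : ℤ) ∧ IsCSet 3 g (A : Set ℤ) ∧
      A.card = a}.Nonempty :=
    ⟨0, ∅, by simp, by simpa using isCSet_empty hg, rfl⟩
  exact Nat.sSup_mem hne (F_bdd g n)

end Pool.Agent.Y357.C33
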