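import Mathlib
import Pool.Agent.Y357.C33.Defs

/-!
# Relations without `K_{3,t+2}`: the sharp upper bound, in a variance form
-/

set_option autoImplicit false

namespace Pool.Agent.Y357.C33

open Finset

section bip

variable {R M : Type*} [Fintype R] [Fintype M] [DecidableEq R] [DecidableEq M]
  (E : R → M → Prop) [∀ x c, Decidable (E x c)] (t : ℕ)

set_option linter.unusedSectionVars false

/-- three distinct rows have at most `t + 1` common columns -/
def NoK3 : Prop :=
  ∀ x y z : R, x ≠ y → x ≠ z → y ≠ z →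
    (univ.filter fun c => E x c ∧ E y c ∧ E z c).card ≤ t + 1

/-- the indicator of the relation -/
def ind (x : R) (c : M) : ℝ := if E x c then 1 else 0

theorem ind_nonneg (x : R) (c : M) : 0 ≤ ind E x c := by
  unfold ind; split_ifs <;> norm_num

theorem ind_sq (x : R) (c : M) : ind E x c * ind E x c = ind E x c := by
  unfold ind; split_ifs <;> norm_num

theorem real_aux {F q P : ℝ} (hq : 0 ≤ q) (hP : 0 ≤ P) (h : F ^ 2 ≤ q * (F + P ^ 2)) :
    F ≤ q + Real.sqrt q * P := by
  by_contra hc
  push Not at hc
  have h1 : 0 ≤ Real.sqrt q * P := by positivity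
  have h2 : Real.sqrt q ^ 2 = q := Real.sq_sqrt hq
  have h3 : Real.sqrt q * P < F - q := by linarith
  have hF : 0 < F := by linarith
  have h4 : (Real.sqrt q * P) * (Real.sqrt q * P) < F * (F - q) := by
    have : Real.sqrt q * P ≤ F := by linarith
    calc (Real.sqrt q * P) * (Real.sqrt q * P) ≤ F * (Real.sqrt q * P) :=
          mul_le_mul_of_nonneg_right this h1
      _ < F * (F - q) := mul_lt_mul_of_pos_left h3 hF
  have h5 : (Real.sqrt q * P) * (Real.sqrt q * P) = q * P ^ 2 := by
    calc (Real.sqrt q * P) * (Real.sqrt q * P) = Real.sqrt q ^ 2 * P ^ 2 := by ring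
      _ = q * P ^ 2 := by rw [h2]
  nlinarith

/-- the number of edges in the link of an edge `(x, c)` -/
theorem link_le (h : NoK3 E t) (x : R) (c : M) (hxc : E x c) (a : ℕ)
    (ha : (univ.filter fun d => E x d).card = a) :
    ∑ d ∈ univ.filter (fun d => d ≠ c ∧ E x d), ∑ y ∈ univ.filter (fun y => y ≠ x ∧ E y c),
      ind E y d ≤ a + Real.sqrt (t * a) * ((univ.filter fun y => y ≠ x ∧ E y c).card : ℝ) := by
  set Q := univ.filter (fun d => d ≠ c ∧ E x d) with hQ
  set P := univ.filter (fun y => y ≠ x ∧ E y c) with hP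
  set f : M → ℝ := fun d => ∑ y ∈ P, ind E y d with hf
  have hQa : (Q.card : ℝ) ≤ a := by
    have : Q ⊆ univ.filter fun d => E x d := by
      intro d hd
      simp only [hQ, mem_filter, mem_univ, true_and] at hd ⊢
      exact hd.2
    have := Finset.card_le_card this
    rw [ha] at this
    exact_mod_cast this
  -- sum of squares
  have hsq : ∑ d ∈ Q, f d ^ 2 ≤ (∑ d ∈ Q, f d) + (Real.sqrt t * (P.card : ℝ)) ^ 2 := by
    have e1 : ∑ d ∈ Q, f d ^ 2 = ∑ y ∈ P, ∑ z ∈ P, ∑ d ∈ Q, ind E y d * ind E z d := by
      have : ∀ d ∈ Q, f d ^ 2 = ∑ y ∈ P, ∑ z ∈ P, ind E y d * ind E z d := by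
        intro d _
        rw [sq, hf]
        simp only
        rw [Finset.sum_mul_sum]
      rw [Finset.sum_congr rfl this, Finset.sum_comm]
      refine Finset.sum_congr rfl fun y _ => ?_
      rw [Finset.sum_comm]
    have e2 : ∀ y ∈ P, ∑ z ∈ P, ∑ d ∈ Q, ind E y d * ind E z d ≤
        (∑ d ∈ Q, ind E y d) + t * P.card := by
      intro y hy
      have hz : ∀ z ∈ P, ∑ d ∈ Q, ind E y d * ind E z d ≤
          (if z = y then ∑ d ∈ Q, ind E y d else 0) + t := by
        intro z hz
        by_cases hzy : z = y
        · subst hzy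
          rw [if_pos rfl]
          have : ∑ d ∈ Q, ind E z d * ind E z d = ∑ d ∈ Q, ind E z d :=
            Finset.sum_congr rfl fun d _ => ind_sq E z d
          rw [this]
          have : (0 : ℝ) ≤ t := by positivity
          linarith
        · rw [if_neg hzy, zero_add]
          have h1 : ∑ d ∈ Q, ind E y d * ind E z d =
              ((Q.filter fun d => E y d ∧ E z d).card : ℝ) := by
            rw [Finset.card_filter]
            push_cast
            refine Finset.sum_congr rfl fun d _ => ?_
            unfold ind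
            by_cases h1 : E y d <;> by_cases h2 : E z d <;> simp [h1, h2]
          rw [h1]
          have h2 : (Q.filter fun d => E y d ∧ E z d).card ≤ t := by
            simp only [hP, mem_filter, mem_univ, true_and] at hy hz
            have h3 := h x y z (Ne.symm hy.1) (Ne.symm hz.1) (Ne.symm hzy)
            have h4 : insert c (Q.filter fun d => E y d ∧ E z d) ⊆
                univ.filter fun c => E x c ∧ E y c ∧ E z c := by
              intro d hd
              rw [Finset.mem_insert] at hd
              rw [mem_filter]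
              refine ⟨mem_univ _, ?_⟩
              rcases hd with rfl | hd
              · exact ⟨hxc, hy.2, hz.2⟩
              · simp only [hQ, mem_filter, mem_univ, true_and] at hd
                exact ⟨hd.1.2, hd.2⟩
            have h5 := Finset.card_le_card h4
            rw [Finset.card_insert_of_notMem (by simp [hQ])] at h5
            omega
          exact_mod_cast h2
      calc ∑ z ∈ P, ∑ d ∈ Q, ind E y d * ind E z d
          ≤ ∑ z ∈ P, ((if z = y then ∑ d ∈ Q, ind E y d else 0) + t) := Finset.sum_le_sum hz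
        _ = (∑ d ∈ Q, ind E y d) + t * P.card := by
            rw [Finset.sum_add_distrib, Finset.sum_ite_eq' P y, if_pos hy, Finset.sum_const,
              nsmul_eq_mul]
            ring
    rw [e1]
    have hst : Real.sqrt t ^ 2 = t := Real.sq_sqrt (by positivity)
    calc ∑ y ∈ P, ∑ z ∈ P, ∑ d ∈ Q, ind E y d * ind E z d
        ≤ ∑ y ∈ P, ((∑ d ∈ Q, ind E y d) + t * P.card) := Finset.sum_le_sum e2
      _ = (∑ d ∈ Q, f d) + t * (P.card : ℝ) ^ 2 := by
          rw [Finset.sum_add_distrib, Finset.sum_comm, Finset.sum_const, nsmul_eq_mul]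
          ring
      _ = _ := by rw [mul_pow, hst]
  have hcs : (∑ d ∈ Q, f d) ^ 2 ≤ Q.card * ∑ d ∈ Q, f d ^ 2 := sq_sum_le_card_mul_sum_sq
  have hf0 : 0 ≤ ∑ d ∈ Q, f d :=
    Finset.sum_nonneg fun d _ => Finset.sum_nonneg fun y _ => ind_nonneg E y d
  have hfin : (∑ d ∈ Q, f d) ^ 2 ≤
      (a : ℝ) * ((∑ d ∈ Q, f d) + (Real.sqrt t * (P.card : ℝ)) ^ 2) := by
    calc (∑ d ∈ Q, f d) ^ 2 ≤ Q.card * ∑ d ∈ Q, f d ^ 2 := hcs
      _ ≤ Q.card * ((∑ d ∈ Q, f d) + (Real.sqrt t * (P.card : ℝ)) ^ 2) :=
          mul_le_mul_of_nonneg_left hsq (by positivity)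
      _ ≤ (a : ℝ) * ((∑ d ∈ Q, f d) + (Real.sqrt t * (P.card : ℝ)) ^ 2) :=
          mul_le_mul_of_nonneg_right hQa (by positivity)
  have := real_aux (by positivity) (by positivity) hfin
  refine this.trans (le_of_eq ?_)
  rw [Real.sqrt_mul (by positivity)]
  ring

/-- the codegree of two rows -/
def cod (x y : R) : ℝ := ∑ c, ind E x c * ind E y c

theorem cod_nonneg (x y : R) : 0 ≤ cod E x y :=
  Finset.sum_nonneg fun c _ => mul_nonneg (ind_nonneg E x c) (ind_nonneg E y c)

/-- the sum of the codegrees of ordered pairs of distinct rows -/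
def SS : ℝ := ∑ x, ∑ y ∈ univ.filter (fun y => y ≠ x), cod E x y

theorem ineq_one (h : NoK3 E t) (a : ℕ)
    (ha : ∀ x, (univ.filter fun d => E x d).card = a) :
    SS E ^ 2 ≤ (Fintype.card R : ℝ) ^ 2 *
      ((Fintype.card R : ℝ) * a ^ 2 + (Real.sqrt (t * a) + 1) * SS E) := by
  -- Cauchy-Schwarz
  have hcs : SS E ^ 2 ≤ (Fintype.card R : ℝ) ^ 2 *
      ∑ x, ∑ y ∈ univ.filter (fun y => y ≠ x), cod E x y ^ 2 := by
    unfold SS
    have h1 : (∑ x, ∑ y ∈ univ.filter (fun y => y ≠ x), cod E x y) ^ 2 ≤
        (Fintype.card R : ℝ) * ∑ x, (∑ y ∈ univ.filter (fun y => y ≠ x), cod E x y) ^ 2 := by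
      have := sq_sum_le_card_mul_sum_sq (s := (univ : Finset R))
        (f := fun x => ∑ y ∈ univ.filter (fun y => y ≠ x), cod E x y)
      simpa using this
    have h2 : ∀ x : R, (∑ y ∈ univ.filter (fun y => y ≠ x), cod E x y) ^ 2 ≤
        (Fintype.card R : ℝ) * ∑ y ∈ univ.filter (fun y => y ≠ x), cod E x y ^ 2 := by
      intro x
      have := sq_sum_le_card_mul_sum_sq (s := univ.filter (fun y => y ≠ x))
        (f := fun y => cod E x y)
      refine this.trans (mul_le_mul_of_nonneg_right ?_
        (Finset.sum_nonneg fun y _ => sq_nonneg _))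
      exact_mod_cast Finset.card_le_univ _
    calc _ ≤ _ := h1
      _ ≤ (Fintype.card R : ℝ) * ∑ x, ((Fintype.card R : ℝ) *
            ∑ y ∈ univ.filter (fun y => y ≠ x), cod E x y ^ 2) :=
          mul_le_mul_of_nonneg_left (Finset.sum_le_sum fun x _ => h2 x) (by positivity)
      _ = _ := by rw [← Finset.mul_sum]; ring
  -- the links
  have hlink : ∀ x : R, (∑ y ∈ univ.filter (fun y => y ≠ x), cod E x y ^ 2) -
      (∑ y ∈ univ.filter (fun y => y ≠ x), cod E x y) ≤
      (a : ℝ) ^ 2 + Real.sqrt (t * a) * ∑ y ∈ univ.filter (fun y => y ≠ x), cod E x y := by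
    intro x
    -- number of links edges
    have e1 : (∑ y ∈ univ.filter (fun y => y ≠ x), cod E x y ^ 2) -
        (∑ y ∈ univ.filter (fun y => y ≠ x), cod E x y) =
        ∑ c ∈ univ.filter (fun c => E x c), ∑ d ∈ univ.filter (fun d => d ≠ c ∧ E x d),
          ∑ y ∈ univ.filter (fun y => y ≠ x ∧ E y c), ind E y d := by
      rw [← Finset.sum_sub_distrib]
      have hy : ∀ y : R, cod E x y ^ 2 - cod E x y =
          ∑ c, ∑ d ∈ univ.filter (fun d => d ≠ c),
            (ind E x c * ind E y c) * (ind E x d * ind E y d) := by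
        intro y
        rw [sq]
        unfold cod
        rw [Finset.sum_mul_sum, ← Finset.sum_sub_distrib]
        refine Finset.sum_congr rfl fun c _ => ?_
        have : ∑ d, (ind E x c * ind E y c) * (ind E x d * ind E y d) =
            ∑ d ∈ univ.filter (fun d => d ≠ c), (ind E x c * ind E y c) * (ind E x d * ind E y d) +
            ∑ d ∈ univ.filter (fun d => ¬ d ≠ c),
              (ind E x c * ind E y c) * (ind E x d * ind E y d) :=
          (Finset.sum_filter_add_sum_filter_not univ (fun d => d ≠ c) _).symm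
        rw [this]
        have h2 : ∑ d ∈ univ.filter (fun d => ¬ d ≠ c),
            (ind E x c * ind E y c) * (ind E x d * ind E y d) = ind E x c * ind E y c := by
          have : univ.filter (fun d => ¬ d ≠ c) = {c} := by
            ext d; simp
          rw [this, Finset.sum_singleton]
          have h1 := ind_sq E x c
          have h2 := ind_sq E y c
          calc _ = (ind E x c * ind E x c) * (ind E y c * ind E y c) := by ring
            _ = _ := by rw [h1, h2]
        rw [h2]
        ring
      rw [Finset.sum_congr rfl fun y _ => hy y, Finset.sum_comm]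
      rw [Finset.sum_filter]
      refine Finset.sum_congr rfl fun c _ => ?_
      by_cases hc : E x c
      · rw [if_pos hc, Finset.sum_comm]
        have : univ.filter (fun d => d ≠ c ∧ E x d) =
            (univ.filter (fun d => d ≠ c)).filter (fun d => E x d) := by
          rw [Finset.filter_filter]
        rw [this, Finset.sum_filter (fun d => E x d)]
        refine Finset.sum_congr rfl fun d _ => ?_
        by_cases hd : E x d
        · rw [if_pos hd]
          have : univ.filter (fun y => y ≠ x ∧ E y c) =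
              (univ.filter (fun y => y ≠ x)).filter (fun y => E y c) := by
            rw [Finset.filter_filter]
          rw [this, Finset.sum_filter (fun y => E y c)]
          refine Finset.sum_congr rfl fun y _ => ?_
          unfold ind
          by_cases hy1 : E y c <;> simp [hc, hd, hy1]
        · rw [if_neg hd]
          refine Finset.sum_eq_zero fun y _ => ?_
          unfold ind
          simp [hd]
      · rw [if_neg hc]
        refine Finset.sum_eq_zero fun y _ => Finset.sum_eq_zero fun d _ => ?_
        unfold ind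
        simp [hc]
    rw [e1]
    have e2 : ∀ c ∈ univ.filter (fun c => E x c),
        ∑ d ∈ univ.filter (fun d => d ≠ c ∧ E x d),
          ∑ y ∈ univ.filter (fun y => y ≠ x ∧ E y c), ind E y d ≤
        a + Real.sqrt (t * a) * ((univ.filter fun y => y ≠ x ∧ E y c).card : ℝ) := by
      intro c hc
      simp only [mem_filter, mem_univ, true_and] at hc
      exact link_le E t h x c hc a (ha x)
    refine (Finset.sum_le_sum e2).trans (le_of_eq ?_)
    rw [Finset.sum_add_distrib, Finset.sum_const, ha x, nsmul_eq_mul, ← Finset.mul_sum]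
    have e3 : ∑ c ∈ univ.filter (fun c => E x c),
        ((univ.filter fun y => y ≠ x ∧ E y c).card : ℝ) =
        ∑ y ∈ univ.filter (fun y => y ≠ x), cod E x y := by
      unfold cod
      rw [Finset.sum_comm, Finset.sum_filter]
      refine Finset.sum_congr rfl fun c _ => ?_
      by_cases hc : E x c
      · rw [if_pos hc]
        have : univ.filter (fun y => y ≠ x ∧ E y c) =
            (univ.filter (fun y => y ≠ x)).filter (fun y => E y c) := by
          rw [Finset.filter_filter]
        rw [this, Finset.card_filter]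
        push_cast
        refine Finset.sum_congr rfl fun y _ => ?_
        unfold ind
        simp [hc]
      · rw [if_neg hc]
        symm
        refine Finset.sum_eq_zero fun y _ => ?_
        unfold ind
        simp [hc]
    rw [e3]
    ring
  have hsum : (∑ x, ∑ y ∈ univ.filter (fun y => y ≠ x), cod E x y ^ 2) ≤
      (Fintype.card R : ℝ) * a ^ 2 + (Real.sqrt (t * a) + 1) * SS E := by
    have := Finset.sum_le_sum (s := (univ : Finset R)) fun x _ => hlink x
    rw [Finset.sum_sub_distrib, Finset.sum_add_distrib, ← Finset.mul_sum, Finset.sum_const,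
      nsmul_eq_mul, Finset.card_univ] at this
    unfold SS
    linarith
  exact hcs.trans (mul_le_mul_of_nonneg_left hsum (by positivity))

theorem SS_nonneg : 0 ≤ SS E :=
  Finset.sum_nonneg fun x _ => Finset.sum_nonneg fun y _ => cod_nonneg E x y

/-- the variance of the column sums -/
theorem var_eq (a : ℕ) (ha : ∀ x, (univ.filter fun d => E x d).card = a)
    (hM : 0 < Fintype.card M) :
    ∑ c, ((∑ x, ind E x c) - (Fintype.card R : ℝ) * a / Fintype.card M) ^ 2 =
      SS E + (Fintype.card R : ℝ) * a - ((Fintype.card R : ℝ) * a) ^ 2 / Fintype.card M := by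
  have hrow : ∀ x, ∑ c, ind E x c = a := by
    intro x
    rw [← ha x, Finset.card_filter]
    push_cast
    rfl
  have htot : ∑ c, ∑ x, ind E x c = (Fintype.card R : ℝ) * a := by
    rw [Finset.sum_comm, Finset.sum_congr rfl fun x _ => hrow x]
    simp
  have hsq : ∑ c, (∑ x, ind E x c) ^ 2 = SS E + (Fintype.card R : ℝ) * a := by
    have e1 : ∀ c, (∑ x, ind E x c) ^ 2 = ∑ x, ∑ y, ind E x c * ind E y c := by
      intro c
      rw [sq, Finset.sum_mul_sum]
    rw [Finset.sum_congr rfl fun c _ => e1 c, Finset.sum_comm]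
    have e2 : ∀ x, ∑ c, ∑ y, ind E x c * ind E y c =
        (∑ y ∈ univ.filter (fun y => y ≠ x), cod E x y) + a := by
      intro x
      rw [Finset.sum_comm]
      rw [← Finset.sum_filter_add_sum_filter_not univ (fun y => y ≠ x)]
      congr 1
      have : univ.filter (fun y => ¬ y ≠ x) = {x} := by
        ext d; simp
      rw [this, Finset.sum_singleton, ← hrow x]
      exact Finset.sum_congr rfl fun c _ => ind_sq E x c
    rw [Finset.sum_congr rfl fun x _ => e2 x, Finset.sum_add_distrib, Finset.sum_const,
      nsmul_eq_mul, Finset.card_univ]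
    rfl
  have hm : (Fintype.card M : ℝ) ≠ 0 := by
    have : (0 : ℝ) < Fintype.card M := by exact_mod_cast hM
    exact this.ne'
  set v : ℝ := (Fintype.card R : ℝ) * a / Fintype.card M with hv
  have e3 : ∑ c, ((∑ x, ind E x c) - v) ^ 2 = ∑ c, (∑ x, ind E x c) ^ 2 -
      2 * v * ∑ c, ∑ x, ind E x c + Fintype.card M * v ^ 2 := by
    rw [Finset.mul_sum, ← Finset.sum_sub_distrib]
    have : (Fintype.card M : ℝ) * v ^ 2 = ∑ _c : M, v ^ 2 := by
      rw [Finset.sum_const, nsmul_eq_mul, Finset.card_univ]
    rw [this, ← Finset.sum_add_distrib]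
    exact Finset.sum_congr rfl fun c _ => by ring
  rw [e3, hsq, htot, hv]
  field_simp
  ring

/-- The inequality of Füredi type for relations without `K_{3,t+2}` and with constant row sums,
in a variance form. -/
theorem main_var (h : NoK3 E t) (a : ℕ) (ha : ∀ x, (univ.filter fun d => E x d).card = a)
    (hR : 0 < Fintype.card R) (hM : 0 < Fintype.card M) :
    ∑ c, ((∑ x, ind E x c) - (Fintype.card R : ℝ) * a / Fintype.card M) ^ 2 ≤
      (Fintype.card R : ℝ) ^ 2 * (Real.sqrt (t * a) + 1 + a / Real.sqrt (Fintype.card R) +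
      a / (Fintype.card R : ℝ) - (a : ℝ) ^ 2 / Fintype.card M) := by
  rw [var_eq E a ha hM]
  set u : ℝ := (Fintype.card R : ℝ) with hu
  set m : ℝ := (Fintype.card M : ℝ) with hm
  set S := SS E with hS
  have hu0 : 0 < u := by rw [hu]; exact_mod_cast hR
  have hm0 : 0 < m := by rw [hm]; exact_mod_cast hM
  have h1 := ineq_one E t h a ha
  rw [← hu, ← hS] at h1
  have hS0 : 0 ≤ S := SS_nonneg E
  have hsu : Real.sqrt u ^ 2 = u := Real.sq_sqrt hu0.le
  have hsu0 : 0 < Real.sqrt u := Real.sqrt_pos.2 hu0
  have ha0 : (0 : ℝ) ≤ a := by positivity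
  set w : ℝ := Real.sqrt (t * a) with hw
  have hw0 : 0 ≤ w := Real.sqrt_nonneg _
  have h3 : S ≤ u ^ 2 * (w + 1) + u * Real.sqrt u * a := by
    by_contra hc
    push Not at hc
    have hA : 0 ≤ u * Real.sqrt u * a := by positivity
    have hB : 0 ≤ u ^ 2 * (w + 1) := by positivity
    have h4 : u * Real.sqrt u * a < S - u ^ 2 * (w + 1) := by linarith
    have h5 : u * Real.sqrt u * a ≤ S := by linarith
    have hSp : 0 < S := by linarith
    have h6 : (u * Real.sqrt u * a) * (u * Real.sqrt u * a) <
        S * (S - u ^ 2 * (w + 1)) := by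
      calc _ ≤ S * (u * Real.sqrt u * a) := mul_le_mul_of_nonneg_right h5 hA
        _ < _ := mul_lt_mul_of_pos_left h4 hSp
    have h7 : (u * Real.sqrt u * a) * (u * Real.sqrt u * a) = u ^ 2 * (u * a ^ 2) := by
      calc _ = u ^ 2 * (Real.sqrt u ^ 2 * a ^ 2) := by ring
        _ = _ := by rw [hsu]
    rw [h7] at h6
    nlinarith
  have e1 : u ^ 2 * (a / Real.sqrt u) = u * Real.sqrt u * a := by
    have : u ^ 2 = u * (Real.sqrt u * Real.sqrt u) := by rw [← sq, hsu]; ring
    rw [this]
    field_simp
  have e2 : u ^ 2 * ((a : ℝ) / u) = u * a := by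
    field_simp
  have e3 : u ^ 2 * ((a : ℝ) ^ 2 / m) = (u * a) ^ 2 / m := by
    rw [mul_pow, mul_div_assoc]
  have e4 : u ^ 2 * (w + 1 + a / Real.sqrt u + a / u - (a : ℝ) ^ 2 / m) =
      u ^ 2 * (w + 1) + u ^ 2 * (a / Real.sqrt u) + u ^ 2 * ((a : ℝ) / u) -
        u ^ 2 * ((a : ℝ) ^ 2 / m) := by ring
  rw [e4, e1, e2, e3]
  linarith

end bip

/-- The variance inequality for the translates of a `C_3[t + 2]`-set. -/
theorem transl_var {Γ : Type*} [AddCommGroup Γ] [DecidableEq Γ] {R M : Type*} [Fintype R]
    [Fintype M] [DecidableEq R] [DecidableEq M] (t : ℕ) (A : Finset Γ)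
    (hA : IsCSet 3 (t + 2) (A : Set Γ)) (r : R → Γ) (hr : Function.Injective r)
    (c : M → Γ) (hc : Function.Injective c) (hcov : ∀ x, ∀ α ∈ A, ∃ j, c j = α + r x)
    (hR : 0 < Fintype.card R) (hM : 0 < Fintype.card M) :
    ∑ j, (((univ.filter fun x => c j - r x ∈ A).card : ℝ) -
        (Fintype.card R : ℝ) * A.card / Fintype.card M) ^ 2 ≤
      (Fintype.card R : ℝ) ^ 2 * (Real.sqrt (t * A.card) + 1 +
        A.card / Real.sqrt (Fintype.card R) + A.card / (Fintype.card R : ℝ) -
        (A.card : ℝ) ^ 2 / Fintype.card M) := by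
  classical
  let E : R → M → Prop := fun x j => c j - r x ∈ A
  have hE : NoK3 E t := by
    intro x y z hxy hxz hyz
    by_contra hcon
    push Not at hcon
    obtain ⟨K, hK1, hK2⟩ := Finset.exists_subset_card_eq (show t + 2 ≤ _ from hcon)
    apply hA
    refine ⟨{-r x, -r y, -r z}, K.image c, ?_, ?_, ?_⟩
    · rw [Finset.card_eq_three]
      refine ⟨_, _, _, ?_, ?_, ?_, rfl⟩
      · exact fun h => hxy (hr (neg_injective h))
      · exact fun h => hxz (hr (neg_injective h))
      · exact fun h => hyz (hr (neg_injective h))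
    · rw [Finset.card_image_of_injective _ hc, hK2]
    · intro k hk w hw
      obtain ⟨j, hj, rfl⟩ := Finset.mem_image.1 hk
      have h1 := hK1 hj
      simp only [mem_filter, mem_univ, true_and, E] at h1
      simp only [Finset.mem_insert, Finset.mem_singleton] at hw
      rw [Finset.mem_coe]
      rcases hw with rfl | rfl | rfl <;> rw [neg_add_eq_sub]
      · exact h1.1
      · exact h1.2.1
      · exact h1.2.2
  have hrow : ∀ x : R, (univ.filter fun j => E x j).card = A.card := by
    intro x
    refine Finset.card_bij (fun j _ => c j - r x) ?_ ?_ ?_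
    · intro j hj
      simp only [mem_filter, mem_univ, true_and, E] at hj
      exact hj
    · intro j _ k _ hjk
      exact hc (sub_left_injective hjk)
    · intro α hα
      obtain ⟨j, hj⟩ := hcov x α hα
      refine ⟨j, ?_, ?_⟩
      · simp only [mem_filter, mem_univ, true_and, E]
        rw [hj, add_sub_cancel_right]
        exact hα
      · show c j - r x = α
        rw [hj, add_sub_cancel_right]
  have := main_var E t hE A.card hrow hR hM
  refine le_trans (le_of_eq ?_) this
  refine Finset.sum_congr rfl fun j _ => ?_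
  congr 2
  rw [Finset.card_filter]
  push_cast
  rfl

theorem transl_ineq {Γ : Type*} [AddCommGroup Γ] [DecidableEq Γ] {R M : Type*} [Fintype R]
    [Fintype M] [DecidableEq R] [DecidableEq M] (t : ℕ) (A : Finset Γ)
    (hA : IsCSet 3 (t + 2) (A : Set Γ)) (r : R → Γ) (hr : Function.Injective r)
    (c : M → Γ) (hc : Function.Injective c) (hcov : ∀ x, ∀ α ∈ A, ∃ j, c j = α + r x)
    (hR : 0 < Fintype.card R) (hM : 0 < Fintype.card M) :
    (A.card : ℝ) ^ 2 ≤ Fintype.card M * (Real.sqrt (t * A.card) + 1 +
        A.card / Real.sqrt (Fintype.card R) + A.card / (Fintype.card R : ℝ)) := by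
  have h1 := transl_var t A hA r hr c hc hcov hR hM
  have h2 := le_trans (Finset.sum_nonneg fun j _ => sq_nonneg _) h1
  have hR' : (0 : ℝ) < Fintype.card R := by exact_mod_cast hR
  have hM' : (0 : ℝ) < Fintype.card M := by exact_mod_cast hM
  have h3 := nonneg_of_mul_nonneg_right h2 (by positivity)
  have h4 : (A.card : ℝ) ^ 2 / Fintype.card M ≤ Real.sqrt (t * A.card) + 1 +
        A.card / Real.sqrt (Fintype.card R) + A.card / (Fintype.card R : ℝ) := by linarith
  rw [div_le_iff₀ hM'] at h4
  linarith

end Pool.Agent.Y357.C33
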