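import Mathlib
import Pool.Agent.Y357.C33.Defs
import Pool.Agent.Y357.C33.Upper

/-!
# Explicit upper bounds
-/

set_option autoImplicit false

namespace Pool.Agent.Y357.C33

open Finset

/-- The relation `c - q x ∈ A` for a set of integers. -/
theorem int_var {n u q t : ℕ} (hu : 0 < u) (hq : 0 < q) {A : Finset ℤ}
    (hA : A ⊆ Finset.Icc 1 (n : ℤ)) (h : IsCSet 3 (t + 2) (A : Set ℤ)) :
    ∑ j : Fin (n + q * u), (((univ.filter fun x : Fin u => ((j : ℕ) : ℤ) - (q : ℤ) * ((x : ℕ) : ℤ) ∈ A).card : ℝ)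
        - (u : ℝ) * A.card / ((n + q * u : ℕ) : ℝ)) ^ 2 ≤
      (u : ℝ) ^ 2 * (Real.sqrt (t * A.card) + 1 + A.card / Real.sqrt u + A.card / (u : ℝ) -
        (A.card : ℝ) ^ 2 / ((n + q * u : ℕ) : ℝ)) := by
  have := transl_var (R := Fin u) (M := Fin (n + q * u)) t A h
    (fun x => (q : ℤ) * ((x : ℕ) : ℤ)) ?_ (fun j => ((j : ℕ) : ℤ)) ?_ ?_ ?_ ?_
  · simpa only [Fintype.card_fin] using this
  · intro x y hxy
    simp only at hxy
    have hq' : (q : ℤ) ≠ 0 := by exact_mod_cast hq.ne'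
    have := mul_left_cancel₀ hq' hxy
    exact Fin.ext (by exact_mod_cast this)
  · intro x y hxy
    have hxy' : ((x : ℕ) : ℤ) = ((y : ℕ) : ℤ) := hxy
    exact Fin.ext (by exact_mod_cast hxy')
  · intro x α hα
    have h1 := Finset.mem_Icc.1 (hA hα)
    have hx := x.2
    have h2 : (q : ℤ) * ((x : ℕ) : ℤ) ≤ (q : ℤ) * u - q := by
      have : ((x : ℕ) : ℤ) ≤ u - 1 := by omega
      nlinarith
    have h3 : 0 ≤ (q : ℤ) * ((x : ℕ) : ℤ) := by positivity
    refine ⟨⟨(α + (q : ℤ) * ((x : ℕ) : ℤ)).toNat, ?_⟩, ?_⟩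
    · have h4 : ((n + q * u : ℕ) : ℤ) = n + (q : ℤ) * u := by push_cast; ring
      have hq' : (0 : ℤ) < q := by exact_mod_cast hq
      omega
    · show (((α + (q : ℤ) * ((x : ℕ) : ℤ)).toNat : ℕ) : ℤ) = _
      omega
  · rw [Fintype.card_fin]; exact hu
  · rw [Fintype.card_fin]; positivity

theorem int_ineq {n u t : ℕ} (hu : 0 < u) {A : Finset ℤ}
    (hA : A ⊆ Finset.Icc 1 (n : ℤ)) (h : IsCSet 3 (t + 2) (A : Set ℤ)) :
    (A.card : ℝ) ^ 2 ≤ ((n : ℝ) + u) * (Real.sqrt (t * A.card) + 1 + A.card / Real.sqrt u +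
      A.card / (u : ℝ)) := by
  have h1 := int_var (q := 1) hu one_pos hA h
  have h2 := le_trans (Finset.sum_nonneg fun j _ => sq_nonneg _) h1
  have hR' : (0 : ℝ) < u := by exact_mod_cast hu
  have h3 := nonneg_of_mul_nonneg_right h2 (by positivity)
  have hM' : (0 : ℝ) < ((n + 1 * u : ℕ) : ℝ) := by
    have : 0 < n + 1 * u := by omega
    exact_mod_cast this
  have h4 : (A.card : ℝ) ^ 2 / ((n + 1 * u : ℕ) : ℝ) ≤ Real.sqrt (t * A.card) + 1 +
        A.card / Real.sqrt u + A.card / (u : ℝ) := by linarith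
  rw [div_le_iff₀ hM'] at h4
  have h5 : ((n + 1 * u : ℕ) : ℝ) = n + u := by push_cast; ring
  rw [h5] at h4
  linarith

/-- The real inequality behind the bounds. -/
theorem core_real {b l e k : ℝ} (hb : 1 ≤ b) (hl : 0 ≤ l) (he : 0 ≤ e) (he1 : e ≤ 1) (hk : 0 ≤ k)
    (h : b ≤ l → l ^ 2 ≤ (1 + k * e) * (b * Real.sqrt b * Real.sqrt l + 3 * l * e)) :
    l ≤ b * (1 + (4 * k + 3) * e) := by
  by_contra hc
  push Not at hc
  have hbl : b ≤ l := by
    have : b ≤ b * (1 + (4 * k + 3) * e) := by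
      have : 0 ≤ (4 * k + 3) * e := by positivity
      nlinarith
    linarith
  have h1 := h hbl
  have hb0 : 0 < b := by linarith
  have hl0 : 0 < l := by linarith
  have hsb : Real.sqrt b ≤ Real.sqrt l := Real.sqrt_le_sqrt hbl
  have hsl : Real.sqrt l * Real.sqrt l = l := Real.mul_self_sqrt hl
  have h2 : b * Real.sqrt b * Real.sqrt l ≤ b * l := by
    calc b * Real.sqrt b * Real.sqrt l = b * (Real.sqrt b * Real.sqrt l) := by ring
      _ ≤ b * (Real.sqrt l * Real.sqrt l) := by gcongr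
      _ = b * l := by rw [hsl]
  have h3 : l ^ 2 ≤ (1 + k * e) * (b * l + 3 * l * e) :=
    h1.trans (mul_le_mul_of_nonneg_left (by linarith) (by positivity))
  have h4 : l ≤ (1 + k * e) * (b + 3 * e) := by
    have : l * l ≤ l * ((1 + k * e) * (b + 3 * e)) := by nlinarith
    exact le_of_mul_le_mul_left this hl0
  have h5 : (1 + k * e) * (b + 3 * e) ≤ b * ((1 + k * e) * (1 + 3 * e)) := by
    have : 0 ≤ (1 + k * e) * (3 * e) * (b - 1) := by
      apply mul_nonneg (by positivity) (by linarith)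
    nlinarith
  have h6 : (1 + k * e) * (1 + 3 * e) ≤ 1 + (4 * k + 3) * e := by
    have : 0 ≤ k * e * (1 - e) := mul_nonneg (by positivity) (by linarith)
    nlinarith
  have h7 : b * ((1 + k * e) * (1 + 3 * e)) ≤ b * (1 + (4 * k + 3) * e) :=
    mul_le_mul_of_nonneg_left h6 hb0.le
  linarith

theorem sqrt_cube {t : ℕ} {l s : ℝ} (hl : 0 ≤ l) (hs : 0 ≤ s) :
    Real.sqrt (t * (l * s ^ 2)) = (t : ℝ) ^ (1 / 3 : ℝ) * Real.sqrt ((t : ℝ) ^ (1 / 3 : ℝ)) *
      Real.sqrt l * s := by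
  set b : ℝ := (t : ℝ) ^ (1 / 3 : ℝ) with hb
  have hb0 : 0 ≤ b := by positivity
  have hb3 : b ^ 3 = t := by
    rw [hb, ← Real.rpow_natCast, ← Real.rpow_mul (by positivity)]
    norm_num
  have h1 : (t : ℝ) * (l * s ^ 2) = (b * s) ^ 2 * (b * l) := by
    rw [← hb3]; ring
  rw [h1, Real.sqrt_mul (by positivity), Real.sqrt_sq (by positivity), Real.sqrt_mul hb0]
  ring

/-- Upper bound for `C_3[g]`-sets, `g = t + 2 ≥ 3`, of integers. -/
theorem card_le {n t : ℕ} (hn : 1 ≤ n) (ht : 1 ≤ t) {A : Finset ℤ}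
    (hA : A ⊆ Finset.Icc 1 (n : ℤ)) (h : IsCSet 3 (t + 2) (A : Set ℤ)) :
    (A.card : ℝ) ≤ (t : ℝ) ^ (1 / 3 : ℝ) * ((n : ℝ) ^ (2 / 3 : ℝ) + 11 * (n : ℝ) ^ (5 / 9 : ℝ)) := by
  set e : ℝ := (n : ℝ) ^ (-(1 / 9) : ℝ) with he
  set s : ℝ := (n : ℝ) ^ (1 / 3 : ℝ) with hs
  have hn1 : (1 : ℝ) ≤ n := by exact_mod_cast hn
  have hn0 : (0 : ℝ) < n := by linarith
  have he0 : 0 < e := by positivity
  have hs0 : 0 < s := by positivity
  have he1 : e ≤ 1 := Real.rpow_le_one_of_one_le_of_nonpos hn1 (by norm_num)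
  have hs1 : 1 ≤ s := Real.one_le_rpow hn1 (by norm_num)
  have hse : s * e ^ 3 = 1 := by
    rw [he, hs, ← Real.rpow_natCast, ← Real.rpow_mul hn0.le, ← Real.rpow_add hn0]
    norm_num
  have hs3 : s ^ 3 = n := by
    rw [hs, ← Real.rpow_natCast, ← Real.rpow_mul hn0.le]
    norm_num
  have hs2 : (n : ℝ) ^ (2 / 3 : ℝ) = s ^ 2 := by
    rw [hs, ← Real.rpow_natCast, ← Real.rpow_mul hn0.le]
    norm_num
  have h59 : (n : ℝ) ^ (5 / 9 : ℝ) = s ^ 2 * e := by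
    rw [hs, he, ← Real.rpow_natCast, ← Real.rpow_mul hn0.le, ← Real.rpow_add hn0]
    norm_num
  have hse1 : 1 ≤ s * e := by
    rw [← hse]
    have : e ^ 3 ≤ e := by
      calc e ^ 3 = e * e ^ 2 := by ring
        _ ≤ e * 1 := mul_le_mul_of_nonneg_left (by nlinarith) he0.le
        _ = e := mul_one e
    exact mul_le_mul_of_nonneg_left this hs0.le
  clear_value s e
  obtain ⟨u, hu0, huw, huw2⟩ : ∃ u : ℕ, 0 < u ∧ s ^ 3 * e ≤ u ∧ (u : ℝ) ≤ 2 * (s ^ 3 * e) := by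
    have hw1 : 1 ≤ s ^ 3 * e := by
      have h2 : s * e ≤ s ^ 3 * e := by
        have : s ≤ s ^ 3 := by
          calc s = s * 1 := (mul_one s).symm
            _ ≤ s * s ^ 2 := mul_le_mul_of_nonneg_left (one_le_pow₀ hs1) hs0.le
            _ = s ^ 3 := by ring
        exact mul_le_mul_of_nonneg_right this he0.le
      linarith
    refine ⟨⌈s ^ 3 * e⌉₊, Nat.ceil_pos.2 (by linarith), Nat.le_ceil _, ?_⟩
    have := Nat.ceil_lt_add_one (show 0 ≤ s ^ 3 * e by linarith)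
    linarith
  have hmain := int_ineq hu0 hA h
  have ht1 : (1 : ℝ) ≤ t := by exact_mod_cast ht
  have hb1 : 1 ≤ (t : ℝ) ^ (1 / 3 : ℝ) := Real.one_le_rpow ht1 (by norm_num)
  obtain ⟨l, hl0, ha⟩ : ∃ l : ℝ, 0 ≤ l ∧ (A.card : ℝ) = l * s ^ 2 :=
    ⟨(A.card : ℝ) / s ^ 2, by positivity, by field_simp⟩
  rw [ha, sqrt_cube hl0 hs0.le] at hmain
  rw [hs2, h59, ha]
  generalize (t : ℝ) ^ (1 / 3 : ℝ) = b at *
  have goal : l ≤ b * (1 + (4 * 2 + 3) * e) := by
    apply core_real hb1 hl0 he0.le he1 (by norm_num : (0 : ℝ) ≤ 2)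
    intro hbl
    have hl1 : 1 ≤ l := hb1.trans hbl
    -- the terms
    have t1 : (1 : ℝ) ≤ s * (l * e) := by
      calc (1 : ℝ) ≤ 1 * (s * e) := by linarith
        _ ≤ l * (s * e) := mul_le_mul_of_nonneg_right hl1 (by positivity)
        _ = _ := by ring
    have t2 : l * s ^ 2 / Real.sqrt u ≤ s * (l * e) := by
      have h1 : s * e⁻¹ ≤ Real.sqrt u := by
        rw [← Real.sqrt_sq (show 0 ≤ s * e⁻¹ by positivity)]
        apply Real.sqrt_le_sqrt
        refine le_trans (le_of_eq ?_) huw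
        have : (s * e⁻¹) ^ 2 = s ^ 2 * (e⁻¹) ^ 2 * (s * e ^ 3) := by rw [hse]; ring
        rw [this]
        field_simp
      calc l * s ^ 2 / Real.sqrt u ≤ l * s ^ 2 / (s * e⁻¹) :=
            div_le_div_of_nonneg_left (by positivity) (by positivity) h1
        _ = s * (l * e) := by field_simp
    have t3 : l * s ^ 2 / (u : ℝ) ≤ s * (l * e) := by
      have h1 : l * s ^ 2 / (u : ℝ) ≤ l * s ^ 2 / (s ^ 3 * e) :=
        div_le_div_of_nonneg_left (by positivity) (by positivity) huw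
      have h2 : l * s ^ 2 / (s ^ 3 * e) = l * (s * e)⁻¹ := by field_simp
      have h3 : (s * e)⁻¹ ≤ s * e := (inv_le_one_of_one_le₀ hse1).trans hse1
      calc l * s ^ 2 / (u : ℝ) ≤ l * (s * e)⁻¹ := h1.trans h2.le
        _ ≤ l * (s * e) := mul_le_mul_of_nonneg_left h3 hl0
        _ = _ := by ring
    have t4 : (n : ℝ) + u ≤ s ^ 3 * (1 + 2 * e) := by
      rw [← hs3]
      linarith
    have hbr : b * Real.sqrt b * Real.sqrt l * s + 1 + l * s ^ 2 / Real.sqrt u +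
        l * s ^ 2 / (u : ℝ) ≤ s * (b * Real.sqrt b * Real.sqrt l + 3 * l * e) := by
      linarith
    have h5 : (l * s ^ 2) ^ 2 ≤ (s ^ 3 * (1 + 2 * e)) *
        (s * (b * Real.sqrt b * Real.sqrt l + 3 * l * e)) := by
      refine hmain.trans (mul_le_mul t4 hbr ?_ (by positivity))
      have : 0 ≤ b := by linarith
      positivity
    have h6 : s ^ 4 * l ^ 2 ≤ s ^ 4 * ((1 + 2 * e) *
        (b * Real.sqrt b * Real.sqrt l + 3 * l * e)) := by
      calc s ^ 4 * l ^ 2 = (l * s ^ 2) ^ 2 := by ring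
        _ ≤ _ := h5
        _ = _ := by ring
    exact le_of_mul_le_mul_left h6 (by positivity)
  calc l * s ^ 2 ≤ (b * (1 + (4 * 2 + 3) * e)) * s ^ 2 :=
        mul_le_mul_of_nonneg_right goal (by positivity)
    _ = b * (s ^ 2 + 11 * (s ^ 2 * e)) := by ring

theorem F_le {n g : ℕ} (hn : 1 ≤ n) (hg : 3 ≤ g) :
    (F g n : ℝ) ≤ ((g : ℝ) - 2) ^ (1 / 3 : ℝ) *
      ((n : ℝ) ^ (2 / 3 : ℝ) + 11 * (n : ℝ) ^ (5 / 9 : ℝ)) := by
  obtain ⟨t, rfl⟩ : ∃ t, g = t + 2 := ⟨g - 2, by omega⟩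
  obtain ⟨A, hA, hC, hcard⟩ := F_mem (show 1 ≤ t + 2 by omega) n
  have := card_le hn (by omega) hA hC
  rw [hcard] at this
  have h2 : ((t + 2 : ℕ) : ℝ) - 2 = t := by push_cast; ring
  rw [h2]
  exact this

/-- Upper bound for `C_3[t + 2]`-sets in finite abelian groups. -/
theorem group_le {Γ : Type*} [AddCommGroup Γ] [Fintype Γ] {t : ℕ} (ht : 1 ≤ t) {A : Finset Γ}
    (h : IsCSet 3 (t + 2) (A : Set Γ)) :
    (A.card : ℝ) ≤ (t : ℝ) ^ (1 / 3 : ℝ) * ((Fintype.card Γ : ℝ) ^ (2 / 3 : ℝ) +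
      3 * (Fintype.card Γ : ℝ) ^ (1 / 2 : ℝ)) := by
  classical
  set n : ℕ := Fintype.card Γ with hnn
  have hn : 1 ≤ n := Fintype.card_pos
  have hmain := transl_ineq (R := Γ) (M := Γ) t A h id Function.injective_id id
    Function.injective_id (fun x α _ => ⟨α + x, rfl⟩) hn hn
  rw [← hnn] at hmain
  set e : ℝ := (n : ℝ) ^ (-(1 / 6) : ℝ) with he
  set s : ℝ := (n : ℝ) ^ (1 / 3 : ℝ) with hs
  have hn1 : (1 : ℝ) ≤ n := by exact_mod_cast hn
  have hn0 : (0 : ℝ) < n := by linarith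
  have he0 : 0 < e := by positivity
  have hs0 : 0 < s := by positivity
  have he1 : e ≤ 1 := Real.rpow_le_one_of_one_le_of_nonpos hn1 (by norm_num)
  have hs1 : 1 ≤ s := Real.one_le_rpow hn1 (by norm_num)
  have hse : s * e ^ 2 = 1 := by
    rw [he, hs, ← Real.rpow_natCast, ← Real.rpow_mul hn0.le, ← Real.rpow_add hn0]
    norm_num
  have hs3 : s ^ 3 = n := by
    rw [hs, ← Real.rpow_natCast, ← Real.rpow_mul hn0.le]
    norm_num
  have hs2 : (n : ℝ) ^ (2 / 3 : ℝ) = s ^ 2 := by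
    rw [hs, ← Real.rpow_natCast, ← Real.rpow_mul hn0.le]
    norm_num
  have h59 : (n : ℝ) ^ (1 / 2 : ℝ) = s ^ 2 * e := by
    rw [hs, he, ← Real.rpow_natCast, ← Real.rpow_mul hn0.le, ← Real.rpow_add hn0]
    norm_num
  have hsqn : Real.sqrt n = s ^ 2 * e := by rw [Real.sqrt_eq_rpow, h59]
  have hse1 : 1 ≤ s * e := by
    rw [← hse]
    have : e ^ 2 ≤ e := by nlinarith
    exact mul_le_mul_of_nonneg_left this hs0.le
  clear_value s e
  have ht1 : (1 : ℝ) ≤ t := by exact_mod_cast ht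
  have hb1 : 1 ≤ (t : ℝ) ^ (1 / 3 : ℝ) := Real.one_le_rpow ht1 (by norm_num)
  obtain ⟨l, hl0, ha⟩ : ∃ l : ℝ, 0 ≤ l ∧ (A.card : ℝ) = l * s ^ 2 :=
    ⟨(A.card : ℝ) / s ^ 2, by positivity, by field_simp⟩
  rw [ha, sqrt_cube hl0 hs0.le, hsqn] at hmain
  rw [hs2, h59, ha]
  generalize (t : ℝ) ^ (1 / 3 : ℝ) = b at *
  have goal : l ≤ b * (1 + (4 * 0 + 3) * e) := by
    apply core_real hb1 hl0 he0.le he1 le_rfl
    intro hbl
    have hl1 : 1 ≤ l := hb1.trans hbl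
    have t1 : (1 : ℝ) ≤ s * (l * e) := by
      calc (1 : ℝ) ≤ 1 * (s * e) := by linarith
        _ ≤ l * (s * e) := mul_le_mul_of_nonneg_right hl1 (by positivity)
        _ = _ := by ring
    have t2 : l * s ^ 2 / (s ^ 2 * e) = s * (l * e) := by
      have h1 : l * s ^ 2 / (s ^ 2 * e) = l * e⁻¹ := by field_simp
      have h2 : l * e⁻¹ = l * e⁻¹ * (s * e ^ 2) := by rw [hse]; ring
      rw [h1, h2]; field_simp
    have t3 : l * s ^ 2 / (n : ℝ) ≤ s * (l * e) := by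
      have h1 : l * s ^ 2 / (n : ℝ) = l * s⁻¹ := by rw [← hs3]; field_simp
      have h2 : s⁻¹ ≤ s * e := (inv_le_one_of_one_le₀ hs1).trans hse1
      rw [h1]
      calc l * s⁻¹ ≤ l * (s * e) := mul_le_mul_of_nonneg_left h2 hl0
        _ = _ := by ring
    have hbr : b * Real.sqrt b * Real.sqrt l * s + 1 + l * s ^ 2 / (s ^ 2 * e) +
        l * s ^ 2 / (n : ℝ) ≤ s * (b * Real.sqrt b * Real.sqrt l + 3 * l * e) := by
      linarith
    have h5 : (l * s ^ 2) ^ 2 ≤ s ^ 3 *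
        (s * (b * Real.sqrt b * Real.sqrt l + 3 * l * e)) := by
      rw [← hs3] at hbr hmain
      exact hmain.trans (mul_le_mul_of_nonneg_left hbr (by positivity))
    have h6 : s ^ 4 * l ^ 2 ≤ s ^ 4 * ((1 + 0 * e) *
        (b * Real.sqrt b * Real.sqrt l + 3 * l * e)) := by
      calc s ^ 4 * l ^ 2 = (l * s ^ 2) ^ 2 := by ring
        _ ≤ _ := h5
        _ = _ := by ring
    exact le_of_mul_le_mul_left h6 (by positivity)
  calc l * s ^ 2 ≤ (b * (1 + (4 * 0 + 3) * e)) * s ^ 2 :=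
        mul_le_mul_of_nonneg_right goal (by positivity)
    _ = b * (s ^ 2 + 3 * (s ^ 2 * e)) := by ring

end Pool.Agent.Y357.C33
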