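import Mathlib
import Pool.Agent.H966R3.C33Alg
import Pool.Agent.H966R3.C33Count
import Pool.Agent.Y357.C33.Defs

/-!
# A large `C_3[3]`-set in the cyclic group of order `(p ^ 2 + 1) (p - 1)`
-/

set_option autoImplicit false

namespace Pool.Agent.Y357.C33

open Module Finset

open Pool.Agent.H966R3.C33 (InH count_trace no_three)

/-- For every prime `p` there is a `C_3[3]`-set of at least `p ^ 2 - p` elements in
the cyclic group of order `(p ^ 2 + 1) (p - 1)`. -/
theorem exists_cyclic (p : ℕ) [hp : Fact p.Prime] :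
    ∃ A : Finset (ZMod ((p ^ 2 + 1) * (p - 1))),
      IsCSet 3 3 (A : Set (ZMod ((p ^ 2 + 1) * (p - 1)))) ∧ p ^ 2 - p ≤ A.card := by
  classical
  set K := GaloisField p 4 with hK
  haveI : Finite K := inferInstance
  letI : Fintype K := Fintype.ofFinite K
  have hcardK : Fintype.card K = p ^ 4 := by
    rw [← Nat.card_eq_fintype_card]; exact GaloisField.card p 4 (by norm_num)
  have hfr : finrank (ZMod p) K = 4 := GaloisField.finrank p (by norm_num)
  have hp2 : 2 ≤ p := hp.out.two_le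
  set N : ℕ := (p ^ 2 + 1) * (p - 1) with hN
  have hNpos : 0 < N := by
    rw [hN]; exact Nat.mul_pos (by positivity) (by omega)
  haveI : NeZero N := ⟨hNpos.ne'⟩
  have hfac : p ^ 4 - 1 = (p + 1) * N := by
    obtain ⟨q, rfl⟩ : ∃ q, p = q + 1 := ⟨p - 1, by omega⟩
    rw [hN]
    simp only [Nat.add_sub_cancel]
    have : (q + 1) ^ 4 = (q + 1 + 1) * (((q + 1) ^ 2 + 1) * q) + 1 := by ring
    omega
  obtain ⟨g, hg⟩ := IsCyclic.exists_generator (α := Kˣ)
  have hordg : orderOf g = p ^ 4 - 1 := by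
    rw [orderOf_eq_card_of_forall_mem_zpowers hg, Nat.card_eq_fintype_card, Fintype.card_units,
      hcardK]
  set ζ : Kˣ := g ^ (p + 1) with hζ
  have hordζ : orderOf ζ = N := by
    rw [hζ, orderOf_pow_of_dvd (by omega) (by rw [hordg, hfac]; exact Dvd.intro _ rfl), hordg,
      hfac, Nat.mul_div_cancel_left _ (by omega)]
  have hζN : ζ ^ N = 1 := by rw [← hordζ]; exact pow_orderOf_eq_one ζ
  -- powers of `ζ` lie in `H`
  have hH : ∀ i : ℕ, InH p ((ζ ^ i : Kˣ) : K) := by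
    intro i
    refine ⟨Units.ne_zero _, ?_⟩
    have h1 : (ζ ^ i) ^ N = 1 := by
      rw [← pow_mul, mul_comm, pow_mul, hζN, one_pow]
    have h2 : ((ζ ^ i : Kˣ) : K) ^ N = 1 := by
      rw [← Units.val_pow_eq_pow_val, h1, Units.val_one]
    have h3 : (((ζ ^ i : Kˣ) : K) ^ (p ^ 2 + 1)) ^ p =
        ((ζ ^ i : Kˣ) : K) ^ (p ^ 2 + 1) * ((ζ ^ i : Kˣ) : K) ^ N := by
      rw [← pow_mul, ← pow_add]
      congr 1
      obtain ⟨q, rfl⟩ : ∃ q, p = q + 1 := ⟨p - 1, by omega⟩
      rw [hN]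
      simp only [Nat.add_sub_cancel]
      ring
    rw [h3, h2, mul_one]
  -- averaging over `γ`
  set cnt : K → ℕ := fun γ => ((Finset.univ : Finset (ZMod N)).filter
    fun i => Algebra.trace (ZMod p) K (γ * ((ζ ^ i.val : Kˣ) : K)) = 1).card with hcnt
  have hsum : ∑ γ : K, cnt γ = N * p ^ 3 := by
    have e1 : ∑ γ : K, cnt γ = ∑ i : ZMod N,
        (univ.filter fun γ : K =>
          Algebra.trace (ZMod p) K (γ * ((ζ ^ i.val : Kˣ) : K)) = 1).card := by
      simp only [hcnt, Finset.card_filter]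
      rw [Finset.sum_comm]
    rw [e1, Finset.sum_congr rfl fun i _ => count_trace p hcardK (Units.ne_zero (ζ ^ i.val)),
      Finset.sum_const, Finset.card_univ, ZMod.card, smul_eq_mul]
  obtain ⟨γ, hγ⟩ : ∃ γ : K, p ^ 2 - p ≤ cnt γ := by
    by_contra hcon
    push Not at hcon
    have h1 : ∑ γ : K, cnt γ ≤ ∑ _γ : K, (p ^ 2 - p - 1) :=
      Finset.sum_le_sum fun γ _ => by have := hcon γ; omega
    rw [hsum, Finset.sum_const, Finset.card_univ, hcardK, smul_eq_mul] at h1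
    obtain ⟨q, rfl⟩ : ∃ q, p = q + 2 := ⟨p - 2, by omega⟩
    rw [hN] at h1
    have e1 : (q + 2) ^ 2 - (q + 2) - 1 = q ^ 2 + 3 * q + 1 := by
      have : (q + 2) ^ 2 = q ^ 2 + 4 * q + 4 := by ring
      omega
    have e2 : q + 2 - 1 = q + 1 := by omega
    rw [e1, e2] at h1
    have h2 : (q + 2) ^ 4 * (q ^ 2 + 3 * q + 1) <
        ((q + 2) ^ 2 + 1) * (q + 1) * (q + 2) ^ 3 := by
      have h3 : (q + 2) * (q ^ 2 + 3 * q + 1) < ((q + 2) ^ 2 + 1) * (q + 1) := by ring_nf; omega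
      calc (q + 2) ^ 4 * (q ^ 2 + 3 * q + 1) = (q + 2) * (q ^ 2 + 3 * q + 1) * (q + 2) ^ 3 := by
            ring
        _ < _ := Nat.mul_lt_mul_of_pos_right h3 (by positivity)
    omega
  refine ⟨(Finset.univ : Finset (ZMod N)).filter
    fun i => Algebra.trace (ZMod p) K (γ * ((ζ ^ i.val : Kˣ) : K)) = 1, ?_, hγ⟩
  rintro ⟨X, L, hX, hL, hXL⟩
  -- enumerate
  set ex := X.equivFinOfCardEq hX with hex
  set el := L.equivFinOfCardEq hL with hel
  have hadd : ∀ x k : ZMod N, ζ ^ (x + k).val = ζ ^ x.val * ζ ^ k.val := by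
    intro x k
    have h := pow_mod_orderOf ζ (x.val + k.val)
    rw [hordζ] at h
    rw [ZMod.val_add, ← pow_add]
    exact h
  have hmem : ∀ k ∈ L, ∀ x ∈ X,
      Algebra.trace (ZMod p) K (γ * (((ζ ^ x.val : Kˣ) : K) * ((ζ ^ k.val : Kˣ) : K))) = 1 := by
    intro k hk x hx
    have := hXL k hk x hx
    rw [Finset.mem_coe, Finset.mem_filter, hadd, Units.val_mul] at this
    exact this.2
  have hinj : ∀ a b : ZMod N, ((ζ ^ a.val : Kˣ) : K) = ((ζ ^ b.val : Kˣ) : K) → a = b := by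
    intro a b h
    have h1 : ζ ^ a.val = ζ ^ b.val := Units.ext h
    have h2 := pow_injOn_Iio_orderOf (x := ζ)
      (by rw [Set.mem_Iio, hordζ]; exact ZMod.val_lt a)
      (by rw [Set.mem_Iio, hordζ]; exact ZMod.val_lt b) h1
    exact ZMod.val_injective N h2
  refine no_three (p := p) hfr γ (x := fun i => ((ζ ^ ((ex.symm i : X) : ZMod N).val : Kˣ) : K))
    (k := fun j => ((ζ ^ ((el.symm j : L) : ZMod N).val : Kˣ) : K)) (fun i => hH _)
    (fun j => hH _) ?_ ?_ ?_
  · intro i j hij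
    exact ex.symm.injective (Subtype.ext (hinj _ _ hij))
  · intro i j hij
    exact el.symm.injective (Subtype.ext (hinj _ _ hij))
  · intro i j
    exact hmem _ (el.symm j).2 _ (ex.symm i).2

end Pool.Agent.Y357.C33
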