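import Mathlib
import Pool.Agent.Y357.C33.Defs
import Pool.Agent.Y357.C33.Bounds

/-!
# Large `C_3[3]`-sets are equidistributed in all arithmetic progressions
-/

set_option autoImplicit false

namespace Pool.Agent.Y357.C33

open Finset

/-- number of the `i` in `[l, r]` with `s + q i ∈ A` -/
noncomputable def cnt (A : Finset ℤ) (s q l r : ℤ) : ℕ := ((Finset.Icc l r).filter fun i => s + q * i ∈ A).card

theorem cnt_short {A : Finset ℤ} (h : IsCSet 3 3 (A : Set ℤ)) {s q : ℤ} (hq : q ≠ 0) (l r : ℤ)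
    (u : ℕ) (hu : 1 ≤ u) (hlr : r + 1 - l ≤ u) :
    (cnt A s q l r : ℝ) ≤ 12 * (u : ℝ) ^ (2 / 3 : ℝ) := by
  classical
  set B : Finset ℤ := ((Finset.Icc l r).filter fun i => s + q * i ∈ A).image
    (fun i => i - l + 1) with hB
  have hBc : B.card = cnt A s q l r := by
    rw [hB, Finset.card_image_of_injective]
    · rfl
    · intro a b hab
      simp only at hab
      omega
  have hB1 : B ⊆ Finset.Icc 1 (u : ℤ) := by
    intro b hb
    rw [hB, mem_image] at hb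
    obtain ⟨i, hi, rfl⟩ := hb
    rw [mem_filter, mem_Icc] at hi
    rw [mem_Icc]
    omega
  have hB2 : IsCSet 3 (1 + 2) (B : Set ℤ) := by
    rintro ⟨X, K, hX, hK, hXK⟩
    apply h
    refine ⟨X.image (fun x => q * x + (s + q * (l - 1))), K.image (fun k => q * k), ?_, ?_, ?_⟩
    · rw [Finset.card_image_of_injective, hX]
      intro a b hab
      simp only at hab
      exact mul_left_cancel₀ hq (add_right_cancel hab)
    · rw [Finset.card_image_of_injective, hK]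
      intro a b hab
      simp only at hab
      exact mul_left_cancel₀ hq hab
    · intro k hk x hx
      obtain ⟨k', hk', rfl⟩ := mem_image.1 hk
      obtain ⟨x', hx', rfl⟩ := mem_image.1 hx
      have h1 := hXK k' hk' x' hx'
      rw [mem_coe, hB, mem_image] at h1
      obtain ⟨i, hi, hi2⟩ := h1
      rw [mem_filter] at hi
      rw [mem_coe]
      have : q * x' + (s + q * (l - 1)) + q * k' = s + q * i := by
        have : i = x' + k' + l - 1 := by omega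
        rw [this]; ring
      rw [this]
      exact hi.2
  have h1 := card_le hu le_rfl hB1 hB2
  rw [hBc] at h1
  have hu1 : (1 : ℝ) ≤ u := by exact_mod_cast hu
  have h2 : (u : ℝ) ^ (5 / 9 : ℝ) ≤ (u : ℝ) ^ (2 / 3 : ℝ) :=
    Real.rpow_le_rpow_of_exponent_le hu1 (by norm_num)
  have h3 : ((1 : ℕ) : ℝ) ^ (1 / 3 : ℝ) = 1 := by norm_num
  rw [h3, one_mul] at h1
  linarith

theorem cnt_le_add (A : Finset ℤ) (s q l r l' r' l'' r'' : ℤ)
    (h : ∀ i, l ≤ i → i ≤ r → (l' ≤ i ∧ i ≤ r') ∨ (l'' ≤ i ∧ i ≤ r'')) :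
    cnt A s q l r ≤ cnt A s q l' r' + cnt A s q l'' r'' := by
  classical
  unfold cnt
  refine le_trans (Finset.card_le_card ?_) (Finset.card_union_le _ _)
  intro i hi
  rw [mem_filter, mem_Icc] at hi
  rw [mem_union, mem_filter, mem_filter, mem_Icc, mem_Icc]
  rcases h i hi.1.1 hi.1.2 with h1 | h1
  · exact Or.inl ⟨h1, hi.2⟩
  · exact Or.inr ⟨h1, hi.2⟩

theorem cnt_shift {A : Finset ℤ} (h : IsCSet 3 3 (A : Set ℤ)) {s q : ℤ} (hq : q ≠ 0) (k : ℤ)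
    (hk : 0 ≤ k) (u : ℕ) (hu : 1 ≤ u) (x : ℤ) (hx0 : 0 ≤ x) (hx : x < u) :
    |(cnt A s q (1 - x) (k - x) : ℝ) - cnt A s q 1 k| ≤ 12 * (u : ℝ) ^ (2 / 3 : ℝ) := by
  have h1 : cnt A s q (1 - x) (k - x) ≤ cnt A s q 1 k + cnt A s q (1 - x) 0 := by
    apply cnt_le_add
    intro i hi1 hi2
    omega
  have h2 : cnt A s q 1 k ≤ cnt A s q (1 - x) (k - x) + cnt A s q (k - x + 1) k := by
    apply cnt_le_add
    intro i hi1 hi2
    omega
  have h3 := cnt_short h (s := s) hq (1 - x) 0 u hu (by omega)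
  have h4 := cnt_short h (s := s) hq (k - x + 1) k u hu (by omega)
  have h1' : (cnt A s q (1 - x) (k - x) : ℝ) ≤ cnt A s q 1 k + cnt A s q (1 - x) 0 := by
    exact_mod_cast h1
  have h2' : (cnt A s q 1 k : ℝ) ≤ cnt A s q (1 - x) (k - x) + cnt A s q (k - x + 1) k := by
    exact_mod_cast h2
  rw [abs_le]
  constructor <;> linarith

/-- the column sums -/
noncomputable def col (A : Finset ℤ) (q u : ℕ) (c : ℤ) : ℝ :=
  ((univ.filter fun x : Fin u => c - (q : ℤ) * ((x : ℕ) : ℤ) ∈ A).card : ℝ)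

theorem sum_col (A : Finset ℤ) (s : ℤ) (q u k : ℕ) :
    ∑ j ∈ Finset.Icc 1 k, col A q u (s + q * (j : ℤ)) =
      ∑ x : Fin u, (cnt A s q (1 - ((x : ℕ) : ℤ)) ((k : ℤ) - ((x : ℕ) : ℤ)) : ℝ) := by
  classical
  have e1 : ∀ j : ℕ, col A q u (s + q * (j : ℤ)) =
      ∑ x : Fin u, if s + q * (j : ℤ) - (q : ℤ) * ((x : ℕ) : ℤ) ∈ A then (1 : ℝ) else 0 := by
    intro j
    unfold col
    rw [Finset.card_filter]
    push_cast
    rfl
  rw [Finset.sum_congr rfl fun j _ => e1 j, Finset.sum_comm]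
  refine Finset.sum_congr rfl fun x _ => ?_
  unfold cnt
  rw [← Finset.sum_filter, Finset.sum_const, nsmul_eq_mul, mul_one]
  congr 1
  refine Finset.card_bij (fun j _ => (j : ℤ) - ((x : ℕ) : ℤ)) ?_ ?_ ?_
  · intro j hj
    rw [mem_filter, mem_Icc] at hj
    rw [mem_filter, mem_Icc]
    refine ⟨by omega, ?_⟩
    have : s + (q : ℤ) * ((j : ℤ) - ((x : ℕ) : ℤ)) =
        s + q * (j : ℤ) - (q : ℤ) * ((x : ℕ) : ℤ) := by ring
    rw [this]
    exact hj.2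
  · intro a _ b _ hab
    have : (a : ℤ) = b := by linarith
    exact_mod_cast this
  · intro i hi
    rw [mem_filter, mem_Icc] at hi
    refine ⟨(i + ((x : ℕ) : ℤ)).toNat, ?_, ?_⟩
    · rw [mem_filter, mem_Icc]
      refine ⟨by omega, ?_⟩
      have h1 : (((i + ((x : ℕ) : ℤ)).toNat : ℕ) : ℤ) = i + ((x : ℕ) : ℤ) := by omega
      rw [h1]
      have : s + (q : ℤ) * (i + ((x : ℕ) : ℤ)) - (q : ℤ) * ((x : ℕ) : ℤ) = s + q * i := by ring
      rw [this]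
      exact hi.2
    · omega

theorem var_prog {n u q k : ℕ} (hu : 0 < u) (hq : 0 < q) {A : Finset ℤ}
    (hA : A ⊆ Finset.Icc 1 (n : ℤ)) (h : IsCSet 3 3 (A : Set ℤ)) (s : ℤ)
    (hs1 : 1 ≤ s + q) (hs2 : s + q * (k : ℤ) ≤ n) :
    ∑ j ∈ Finset.Icc 1 k, (col A q u (s + q * (j : ℤ)) -
        (u : ℝ) * A.card / ((n + q * u : ℕ) : ℝ)) ^ 2 ≤
      (u : ℝ) ^ 2 * (Real.sqrt A.card + 1 + A.card / Real.sqrt u + A.card / (u : ℝ) -
        (A.card : ℝ) ^ 2 / ((n + q * u : ℕ) : ℝ)) := by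
  classical
  have h0 := int_var (t := 1) hu hq hA h
  rw [Nat.cast_one, one_mul] at h0
  refine le_trans ?_ h0
  set v : ℝ := (u : ℝ) * A.card / ((n + q * u : ℕ) : ℝ) with hv
  set g : ℕ → ℝ := fun c => (col A q u (c : ℤ) - v) ^ 2 with hg
  have e1 : ∑ j : Fin (n + q * u), (((univ.filter fun x : Fin u =>
      ((j : ℕ) : ℤ) - (q : ℤ) * ((x : ℕ) : ℤ) ∈ A).card : ℝ) - v) ^ 2 =
      ∑ c ∈ Finset.range (n + q * u), g c := by
    rw [← Fin.sum_univ_eq_sum_range]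
    rfl
  rw [e1]
  have hpos : ∀ j ∈ Finset.Icc 1 k, 1 ≤ s + q * (j : ℤ) ∧ s + q * (j : ℤ) ≤ n := by
    intro j hj
    rw [mem_Icc] at hj
    have h1 : (1 : ℤ) ≤ j := by exact_mod_cast hj.1
    have h2 : (j : ℤ) ≤ k := by exact_mod_cast hj.2
    have hq' : (0 : ℤ) < q := by exact_mod_cast hq
    constructor <;> nlinarith
  have hinj : Set.InjOn (fun j : ℕ => (s + q * (j : ℤ)).toNat) (Finset.Icc 1 k : Finset ℕ) := by
    intro a ha b hb hab
    simp only at hab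
    have h1 := hpos a (by simpa using ha)
    have h2 := hpos b (by simpa using hb)
    have hq' : (q : ℤ) ≠ 0 := by exact_mod_cast hq.ne'
    have h3 : (q : ℤ) * (a : ℤ) = q * b := by omega
    exact_mod_cast mul_left_cancel₀ hq' h3
  have e2 : ∑ j ∈ Finset.Icc 1 k, (col A q u (s + q * (j : ℤ)) - v) ^ 2 =
      ∑ c ∈ (Finset.Icc 1 k).image (fun j : ℕ => (s + q * (j : ℤ)).toNat), g c := by
    rw [Finset.sum_image hinj]
    refine Finset.sum_congr rfl fun j hj => ?_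
    have h1 := hpos j hj
    have h2 : (((s + q * (j : ℤ)).toNat : ℕ) : ℤ) = s + q * (j : ℤ) := by omega
    rw [hg]
    simp only
    rw [h2]
  rw [e2]
  refine Finset.sum_le_sum_of_subset_of_nonneg ?_ fun c _ _ => sq_nonneg _
  intro c hc
  obtain ⟨j, hj, rfl⟩ := mem_image.1 hc
  have h1 := hpos j hj
  rw [mem_range]
  have hq' : 0 < q * u := Nat.mul_pos hq hu
  omega

/-- the general estimate with a free parameter `u` -/
theorem dist_param {n u q k : ℕ} (hu : 0 < u) (hq : 0 < q) {A : Finset ℤ}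
    (hA : A ⊆ Finset.Icc 1 (n : ℤ)) (h : IsCSet 3 3 (A : Set ℤ)) (s : ℤ)
    (hs1 : 1 ≤ s + q) (hs2 : s + q * (k : ℤ) ≤ n) :
    |(cnt A s q 1 k : ℝ) - k * A.card / ((n + q * u : ℕ) : ℝ)| ≤ 12 * (u : ℝ) ^ (2 / 3 : ℝ) +
      Real.sqrt (k * (Real.sqrt A.card + 1 + A.card / Real.sqrt u + A.card / (u : ℝ) -
        (A.card : ℝ) ^ 2 / ((n + q * u : ℕ) : ℝ))) := by
  have hvar := var_prog hu hq hA h s hs1 hs2
  have hu0 : (0 : ℝ) < u := by exact_mod_cast hu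
  set v : ℝ := (u : ℝ) * A.card / ((n + q * u : ℕ) : ℝ) with hv
  set B : ℝ := Real.sqrt A.card + 1 + A.card / Real.sqrt u + A.card / (u : ℝ) -
        (A.card : ℝ) ^ 2 / ((n + q * u : ℕ) : ℝ) with hB
  set K : ℝ := 12 * (u : ℝ) ^ (2 / 3 : ℝ) with hK
  set S : ℝ := ∑ j ∈ Finset.Icc 1 k, col A q u (s + q * (j : ℤ)) with hS
  have hB0 : 0 ≤ B := by
    have h2 := le_trans (Finset.sum_nonneg fun j _ => sq_nonneg _) hvar
    exact nonneg_of_mul_nonneg_right h2 (by positivity)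
  have h1 : |S - k * v| ≤ u * Real.sqrt (k * B) := by
    have e1 : S - k * v = ∑ j ∈ Finset.Icc 1 k, (col A q u (s + q * (j : ℤ)) - v) := by
      rw [Finset.sum_sub_distrib, Finset.sum_const, Nat.card_Icc, nsmul_eq_mul]
      simp [hS]
    have e2 : (S - k * v) ^ 2 ≤ (u * Real.sqrt (k * B)) ^ 2 := by
      have h3 := sq_sum_le_card_mul_sum_sq (s := Finset.Icc 1 k)
        (f := fun j : ℕ => col A q u (s + q * (j : ℤ)) - v)
      rw [← e1, Nat.card_Icc] at h3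
      have h4 : (((k + 1 - 1 : ℕ)) : ℝ) = k := by simp
      rw [h4] at h3
      rw [mul_pow, Real.sq_sqrt (by positivity)]
      calc (S - k * v) ^ 2 ≤ _ := h3
        _ ≤ k * (u ^ 2 * B) := mul_le_mul_of_nonneg_left hvar (by positivity)
        _ = _ := by ring
    exact abs_le_of_sq_le_sq e2 (by positivity)
  have h2 : |S - u * cnt A s q 1 k| ≤ u * K := by
    rw [hS, sum_col]
    have e1 : (u : ℝ) * cnt A s q 1 k = ∑ _x : Fin u, (cnt A s q 1 k : ℝ) := by simp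
    rw [e1, ← Finset.sum_sub_distrib]
    refine (Finset.abs_sum_le_sum_abs _ _).trans ?_
    have e2 : (u : ℝ) * K = ∑ _x : Fin u, K := by simp
    rw [e2]
    refine Finset.sum_le_sum fun x _ => ?_
    have hx := x.2
    exact cnt_shift h (by exact_mod_cast hq.ne') k (by positivity) u hu _ (by positivity)
      (by exact_mod_cast hx)
  have h3 : |(u : ℝ) * (cnt A s q 1 k - k * A.card / ((n + q * u : ℕ) : ℝ))| ≤
      u * (K + Real.sqrt (k * B)) := by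
    have e1 : (u : ℝ) * (cnt A s q 1 k - k * A.card / ((n + q * u : ℕ) : ℝ)) =
        (S - k * v) - (S - u * cnt A s q 1 k) := by
      rw [hv]; ring
    rw [e1]
    refine (abs_sub _ _).trans ?_
    linarith
  rw [abs_mul, abs_of_pos hu0] at h3
  exact le_of_mul_le_mul_left h3 hu0

/-- the numerical part -/
theorem numeric {σ e ε l u m k q : ℝ} (hσ : 1 ≤ σ) (he0 : 0 < e) (he1 : e ≤ 1) (hse : σ * e ^ 3 = 1)
    (hse1 : 1 ≤ σ * e) (hε : 0 ≤ ε) (hl0 : 0 ≤ l) (hl12 : l ≤ 12) (hlε : 1 - ε ≤ l)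
    (hu1 : σ ^ 3 * e ≤ u) (hu2 : u ≤ 2 * (σ ^ 3 * e)) (hq : 1 ≤ q) (hm : m = σ ^ 3 + q * u)
    (hk : 0 ≤ k) (hkq : k * q ≤ 2 * σ ^ 3) :
    k * (Real.sqrt (l * σ ^ 2) + 1 + l * σ ^ 2 / Real.sqrt u + l * σ ^ 2 / u -
      (l * σ ^ 2) ^ 2 / m) ≤ 676 * σ ^ 4 * (ε + e) := by
  have hσ0 : 0 < σ := by linarith
  have hu0 : 0 < u := lt_of_lt_of_le (by positivity) hu1
  have hm0 : 0 < m := by rw [hm]; positivity
  have hk2 : k ≤ 2 * σ ^ 3 := by nlinarith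
  have t0 : Real.sqrt (l * σ ^ 2) = Real.sqrt l * σ := by
    rw [Real.sqrt_mul hl0, Real.sqrt_sq hσ0.le]
  have t1 : Real.sqrt l - l ^ 2 ≤ 2 * ε := by
    by_cases h1 : 1 ≤ l
    · have h2 : Real.sqrt l ≤ l := by
        rw [Real.sqrt_le_left (by linarith)]
        nlinarith
      nlinarith
    · push Not at h1
      have h2 : Real.sqrt l ≤ 1 := by
        rw [Real.sqrt_le_left (by norm_num)]
        linarith
      nlinarith
  have t2 : l ^ 2 * σ * (1 - q * u / σ ^ 3) ≤ (l * σ ^ 2) ^ 2 / m := by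
    rw [le_div_iff₀ hm0, hm]
    have h1 : l ^ 2 * σ * (1 - q * u / σ ^ 3) * (σ ^ 3 + q * u) =
        (l * σ ^ 2) ^ 2 - l ^ 2 * σ * (q * u) ^ 2 / σ ^ 3 := by
      field_simp
      ring
    rw [h1]
    have : 0 ≤ l ^ 2 * σ * (q * u) ^ 2 / σ ^ 3 := by positivity
    linarith
  have t3 : σ ^ 2 / Real.sqrt u ≤ σ * e := by
    have h1 : σ * e⁻¹ ≤ Real.sqrt u := by
      rw [← Real.sqrt_sq (show 0 ≤ σ * e⁻¹ by positivity)]
      apply Real.sqrt_le_sqrt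
      refine le_trans (le_of_eq ?_) hu1
      have : (σ * e⁻¹) ^ 2 = σ ^ 2 * (e⁻¹) ^ 2 * (σ * e ^ 3) := by rw [hse]; ring
      rw [this]
      field_simp
    calc σ ^ 2 / Real.sqrt u ≤ σ ^ 2 / (σ * e⁻¹) :=
          div_le_div_of_nonneg_left (by positivity) (by positivity) h1
      _ = σ * e := by field_simp
  have t4 : σ ^ 2 / u ≤ σ * e := by
    have h1 : σ ^ 2 / u ≤ σ ^ 2 / (σ ^ 3 * e) :=
      div_le_div_of_nonneg_left (by positivity) (by positivity) hu1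
    have h2 : σ ^ 2 / (σ ^ 3 * e) = (σ * e)⁻¹ := by field_simp
    have h3 : (σ * e)⁻¹ ≤ σ * e := (inv_le_one_of_one_le₀ hse1).trans hse1
    linarith
  have t5 : l * σ ^ 2 / Real.sqrt u ≤ 12 * (σ * e) := by
    rw [mul_div_assoc]
    exact mul_le_mul hl12 t3 (by positivity) (by norm_num)
  have t6 : l * σ ^ 2 / u ≤ 12 * (σ * e) := by
    rw [mul_div_assoc]
    exact mul_le_mul hl12 t4 (by positivity) (by norm_num)
  have t7 : Real.sqrt (l * σ ^ 2) + 1 + l * σ ^ 2 / Real.sqrt u + l * σ ^ 2 / u -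
      (l * σ ^ 2) ^ 2 / m ≤ 2 * ε * σ + 25 * (σ * e) + l ^ 2 * σ * (q * u / σ ^ 3) := by
    rw [t0]
    have h1 : (Real.sqrt l - l ^ 2) * σ ≤ 2 * ε * σ := mul_le_mul_of_nonneg_right t1 hσ0.le
    nlinarith
  have t8 : k * (l ^ 2 * σ * (q * u / σ ^ 3)) ≤ 576 * σ ^ 4 * e := by
    have h1 : k * (l ^ 2 * σ * (q * u / σ ^ 3)) = l ^ 2 * σ * (k * q) * u / σ ^ 3 := by ring
    rw [h1, div_le_iff₀ (by positivity)]
    have h2 : l ^ 2 ≤ 144 := by nlinarith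
    calc l ^ 2 * σ * (k * q) * u ≤ 144 * σ * (2 * σ ^ 3) * (2 * (σ ^ 3 * e)) := by
          gcongr
      _ = 576 * σ ^ 4 * e * σ ^ 3 := by ring
  calc k * (Real.sqrt (l * σ ^ 2) + 1 + l * σ ^ 2 / Real.sqrt u + l * σ ^ 2 / u -
      (l * σ ^ 2) ^ 2 / m)
      ≤ k * (2 * ε * σ + 25 * (σ * e) + l ^ 2 * σ * (q * u / σ ^ 3)) :=
        mul_le_mul_of_nonneg_left t7 hk
    _ = k * (2 * ε * σ + 25 * (σ * e)) + k * (l ^ 2 * σ * (q * u / σ ^ 3)) := by ring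
    _ ≤ 2 * σ ^ 3 * (2 * ε * σ + 25 * (σ * e)) + 576 * σ ^ 4 * e := by
        gcongr
    _ ≤ 676 * σ ^ 4 * (ε + e) := by
        have h1 : 0 ≤ σ ^ 4 * ε := by positivity
        have h2 : 0 ≤ σ ^ 4 * e := by positivity
        nlinarith

/-- A `C_3[3]`-set in `{1, …, n}` with at least `(1 - ε) n ^ (2/3)` elements is equidistributed
in all arithmetic progressions inside `{1, …, n}`. -/
theorem dist_cnt {n : ℕ} (hn : 1 ≤ n) {A : Finset ℤ} (hA : A ⊆ Finset.Icc 1 (n : ℤ))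
    (h : IsCSet 3 3 (A : Set ℤ)) {ε : ℝ} (hε : 0 ≤ ε)
    (hcard : (1 - ε) * (n : ℝ) ^ (2 / 3 : ℝ) ≤ A.card) (s : ℤ) (q k : ℕ) (hq : 1 ≤ q)
    (hs1 : 1 ≤ s + q) (hs2 : s + q * (k : ℤ) ≤ n) :
    |(cnt A s q 1 k : ℝ) - k * A.card / n| ≤
      100 * (n : ℝ) ^ (2 / 3 : ℝ) * (Real.sqrt ε + (n : ℝ) ^ (-(1 / 18) : ℝ)) := by
  have hup := card_le hn le_rfl hA h
  have h31 : ((1 : ℕ) : ℝ) ^ (1 / 3 : ℝ) = 1 := by norm_num
  rw [h31, one_mul] at hup
  have hn1 : (1 : ℝ) ≤ n := by exact_mod_cast hn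
  have hn0 : (0 : ℝ) < n := by linarith
  have hAn : A.card ≤ n := by
    have := Finset.card_le_card hA
    simpa using this
  have hcnt1 : k ≤ 1 → cnt A s q 1 k ≤ 1 := by
    intro hk1
    unfold cnt
    refine (Finset.card_filter_le _ _).trans ?_
    rw [Int.card_Icc]
    omega
  have h18 : Real.sqrt ((n : ℝ) ^ (-(1 / 9) : ℝ)) = (n : ℝ) ^ (-(1 / 18) : ℝ) := by
    rw [Real.sqrt_eq_rpow, ← Real.rpow_mul hn0.le]
    norm_num
  rw [← h18]
  set e : ℝ := (n : ℝ) ^ (-(1 / 9) : ℝ) with he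
  set σ : ℝ := (n : ℝ) ^ (1 / 3 : ℝ) with hs
  have he0 : 0 < e := by positivity
  have hs0 : 0 < σ := by positivity
  have he1 : e ≤ 1 := Real.rpow_le_one_of_one_le_of_nonpos hn1 (by norm_num)
  have hσ1 : 1 ≤ σ := Real.one_le_rpow hn1 (by norm_num)
  have hse : σ * e ^ 3 = 1 := by
    rw [he, hs, ← Real.rpow_natCast, ← Real.rpow_mul hn0.le, ← Real.rpow_add hn0]
    norm_num
  have hs3 : σ ^ 3 = n := by
    rw [hs, ← Real.rpow_natCast, ← Real.rpow_mul hn0.le]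
    norm_num
  have hs2' : (n : ℝ) ^ (2 / 3 : ℝ) = σ ^ 2 := by
    rw [hs, ← Real.rpow_natCast, ← Real.rpow_mul hn0.le]
    norm_num
  have h59 : (n : ℝ) ^ (5 / 9 : ℝ) = σ ^ 2 * e := by
    rw [hs, he, ← Real.rpow_natCast, ← Real.rpow_mul hn0.le, ← Real.rpow_add hn0]
    norm_num
  have hse1 : 1 ≤ σ * e := by
    rw [← hse]
    have : e ^ 3 ≤ e := by
      calc e ^ 3 = e * e ^ 2 := by ring
        _ ≤ e * 1 := mul_le_mul_of_nonneg_left (by nlinarith) he0.le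
        _ = e := mul_one e
    exact mul_le_mul_of_nonneg_left this hs0.le
  clear_value σ e
  rw [hs2', h59] at hup
  rw [hs2'] at hcard
  rw [hs2']
  have hee : e ≤ Real.sqrt e := by
    rw [Real.le_sqrt' he0]
    nlinarith
  have hse0 : 0 < Real.sqrt e := Real.sqrt_pos.2 he0
  have hsε0 : 0 ≤ Real.sqrt ε := Real.sqrt_nonneg _
  have hbig : 1 ≤ σ ^ 2 * Real.sqrt e := by
    calc (1 : ℝ) ≤ σ * e := hse1
      _ ≤ σ ^ 2 * Real.sqrt e := by
          apply mul_le_mul _ hee he0.le (by positivity)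
          nlinarith
  by_cases hk1 : k ≤ 1
  · have h1 : (cnt A s q 1 k : ℝ) ≤ 1 := by exact_mod_cast hcnt1 hk1
    have h2 : (0 : ℝ) ≤ cnt A s q 1 k := by positivity
    have h3 : (k : ℝ) * A.card / n ≤ 1 := by
      rw [div_le_one hn0]
      have : (k : ℝ) ≤ 1 := by exact_mod_cast hk1
      have h4 : (A.card : ℝ) ≤ n := by exact_mod_cast hAn
      have h5 : (0 : ℝ) ≤ A.card := by positivity
      nlinarith
    have h4 : (0 : ℝ) ≤ (k : ℝ) * A.card / n := by positivity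
    have h5 : |(cnt A s q 1 k : ℝ) - k * A.card / n| ≤ 1 := by
      rw [abs_le]; constructor <;> linarith
    have h6 : 0 ≤ σ ^ 2 * Real.sqrt ε := by positivity
    nlinarith
  push Not at hk1
  obtain ⟨u, hu0, huw, huw2⟩ : ∃ u : ℕ, 0 < u ∧ σ ^ 3 * e ≤ u ∧ (u : ℝ) ≤ 2 * (σ ^ 3 * e) := by
    have hw1 : 1 ≤ σ ^ 3 * e := by
      have h2 : σ * e ≤ σ ^ 3 * e := by
        have : σ ≤ σ ^ 3 := by
          calc σ = σ * 1 := (mul_one σ).symm
            _ ≤ σ * σ ^ 2 := mul_le_mul_of_nonneg_left (one_le_pow₀ hσ1) hs0.le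
            _ = σ ^ 3 := by ring
        exact mul_le_mul_of_nonneg_right this he0.le
      linarith
    refine ⟨⌈σ ^ 3 * e⌉₊, Nat.ceil_pos.2 (by linarith), Nat.le_ceil _, ?_⟩
    have := Nat.ceil_lt_add_one (show 0 ≤ σ ^ 3 * e by linarith)
    linarith
  have hu0' : (0 : ℝ) < u := by exact_mod_cast hu0
  have hmain := dist_param hu0 hq hA h s hs1 hs2
  obtain ⟨l, hl0, ha⟩ : ∃ l : ℝ, 0 ≤ l ∧ (A.card : ℝ) = l * σ ^ 2 :=
    ⟨(A.card : ℝ) / σ ^ 2, by positivity, by field_simp⟩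
  have hl12 : l ≤ 12 := by
    rw [ha] at hup
    have h1 : σ ^ 2 + 11 * (σ ^ 2 * e) ≤ 12 * σ ^ 2 := by nlinarith [sq_nonneg σ]
    have h2 : l * σ ^ 2 ≤ 12 * σ ^ 2 := hup.trans h1
    exact le_of_mul_le_mul_right h2 (by positivity)
  have hlε : 1 - ε ≤ l := by
    rw [ha] at hcard
    exact le_of_mul_le_mul_right hcard (by positivity)
  have hkq : (k : ℝ) * q ≤ 2 * σ ^ 3 := by
    rw [hs3]
    have h1 : (k : ℤ) * q ≤ 2 * n := by
      have h2 : (2 : ℤ) ≤ k := by exact_mod_cast hk1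
      have h3 : (1 : ℤ) ≤ q := by exact_mod_cast hq
      nlinarith
    exact_mod_cast h1
  have hq1 : (1 : ℝ) ≤ q := by exact_mod_cast hq
  set m : ℝ := ((n + q * u : ℕ) : ℝ) with hm
  have hm' : m = σ ^ 3 + q * u := by rw [hm, hs3]; push_cast; ring
  have hm0 : 0 < m := by rw [hm']; positivity
  have hnum := numeric hσ1 he0 he1 hse hse1 hε hl0 hl12 hlε huw huw2 hq1 hm'
    (show (0 : ℝ) ≤ k by positivity) hkq
  rw [ha] at hmain ⊢
  clear_value m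
  have hsq : Real.sqrt (k * (Real.sqrt (l * σ ^ 2) + 1 + l * σ ^ 2 / Real.sqrt u +
      l * σ ^ 2 / (u : ℝ) - (l * σ ^ 2) ^ 2 / m)) ≤ 26 * σ ^ 2 * (Real.sqrt ε + Real.sqrt e) := by
    rw [Real.sqrt_le_left (by positivity)]
    refine hnum.trans ?_
    have h1 : Real.sqrt ε ^ 2 = ε := Real.sq_sqrt hε
    have h2 : Real.sqrt e ^ 2 = e := Real.sq_sqrt he0.le
    have h3 : (26 * σ ^ 2 * (Real.sqrt ε + Real.sqrt e)) ^ 2 =
        676 * σ ^ 4 * (Real.sqrt ε ^ 2 + Real.sqrt e ^ 2) +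
          676 * σ ^ 4 * (2 * Real.sqrt ε * Real.sqrt e) := by ring
    rw [h3, h1, h2]
    have : 0 ≤ 676 * σ ^ 4 * (2 * Real.sqrt ε * Real.sqrt e) := by positivity
    linarith
  have hK : 12 * (u : ℝ) ^ (2 / 3 : ℝ) ≤ 24 * σ ^ 2 * Real.sqrt e := by
    have h1 : (u : ℝ) ^ (2 / 3 : ℝ) ≤ (2 * (σ ^ 3 * e)) ^ (2 / 3 : ℝ) :=
      Real.rpow_le_rpow hu0'.le huw2 (by norm_num)
    rw [Real.mul_rpow (by norm_num) (by positivity), Real.mul_rpow (by positivity) he0.le] at h1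
    have h2 : (2 : ℝ) ^ (2 / 3 : ℝ) ≤ 2 := by
      calc (2 : ℝ) ^ (2 / 3 : ℝ) ≤ 2 ^ (1 : ℝ) :=
            Real.rpow_le_rpow_of_exponent_le (by norm_num) (by norm_num)
        _ = 2 := Real.rpow_one _
    have h3 : (σ ^ 3) ^ (2 / 3 : ℝ) = σ ^ 2 := by
      rw [← Real.rpow_natCast, ← Real.rpow_mul hs0.le, ← Real.rpow_natCast]
      norm_num
    have h4 : e ^ (2 / 3 : ℝ) ≤ Real.sqrt e := by
      rw [Real.sqrt_eq_rpow]
      exact Real.rpow_le_rpow_of_exponent_ge he0 he1 (by norm_num)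
    rw [h3] at h1
    have h5 : (2 : ℝ) ^ (2 / 3 : ℝ) * (σ ^ 2 * e ^ (2 / 3 : ℝ)) ≤ 2 * (σ ^ 2 * Real.sqrt e) := by
      gcongr
    linarith
  have hdiff : |(k : ℝ) * (l * σ ^ 2) / m - k * (l * σ ^ 2) / n| ≤ 48 * σ ^ 2 * Real.sqrt e := by
    have h1 : (k : ℝ) * (l * σ ^ 2) / m - k * (l * σ ^ 2) / n =
        -((k * q) * (l * σ ^ 2) * u / (m * n)) := by
      rw [← hs3, hm']
      have : (0 : ℝ) < σ ^ 3 + q * u := by positivity
      field_simp
      ring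
    rw [h1, abs_neg, abs_of_nonneg (by positivity)]
    rw [div_le_iff₀ (by positivity)]
    have h2 : σ ^ 3 ≤ m := by rw [hm']; have : 0 ≤ (q : ℝ) * u := by positivity
                              linarith
    calc (k * q : ℝ) * (l * σ ^ 2) * u ≤ (2 * σ ^ 3) * (12 * σ ^ 2) * (2 * (σ ^ 3 * e)) := by
          gcongr
      _ = 48 * σ ^ 2 * e * (σ ^ 3 * σ ^ 3) := by ring
      _ ≤ 48 * σ ^ 2 * Real.sqrt e * (m * n) := by
          rw [← hs3]
          gcongr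
  have h1 : (cnt A s q 1 k : ℝ) - k * (l * σ ^ 2) / n =
      ((cnt A s q 1 k : ℝ) - k * (l * σ ^ 2) / m) +
        (k * (l * σ ^ 2) / m - k * (l * σ ^ 2) / n) := by ring
  rw [h1]
  refine (abs_add_le _ _).trans ?_
  have h2 := hmain.trans (add_le_add hK hsq)
  have h3 : 0 ≤ σ ^ 2 * Real.sqrt ε := by positivity
  have h4 : 0 ≤ σ ^ 2 * Real.sqrt e := by positivity
  nlinarith

theorem card_inter_prog (A : Finset ℤ) (s : ℤ) (q k : ℕ) (hq : 1 ≤ q) :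
    (A ∩ (Finset.Icc 1 k).image fun j : ℕ => s + (q : ℤ) * (j : ℤ)).card = cnt A s q 1 k := by
  classical
  have hq' : (q : ℤ) ≠ 0 := by exact_mod_cast (by omega : q ≠ 0)
  unfold cnt
  symm
  refine Finset.card_bij (fun i _ => s + (q : ℤ) * i) ?_ ?_ ?_
  · intro i hi
    rw [mem_filter, mem_Icc] at hi
    rw [mem_inter, mem_image]
    refine ⟨hi.2, i.toNat, ?_, ?_⟩
    · rw [mem_Icc]; omega
    · have : ((i.toNat : ℕ) : ℤ) = i := by omega
      rw [this]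
  · intro a _ b _ hab
    have : (q : ℤ) * a = q * b := by linarith
    exact mul_left_cancel₀ hq' this
  · intro α hα
    rw [mem_inter, mem_image] at hα
    obtain ⟨h1, j, hj, rfl⟩ := hα
    rw [mem_Icc] at hj
    refine ⟨(j : ℤ), ?_, rfl⟩
    rw [mem_filter, mem_Icc]
    exact ⟨by omega, h1⟩

end Pool.Agent.Y357.C33
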