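import Mathlib
import Pool.Agent.H295R3.Hoheisel
import Pool.Agent.H966R3.C33Count
import Pool.Agent.Y357.C33.Defs
import Pool.Agent.Y357.C33.Bounds

/-!
# Primes in short intervals give a power saving error term
-/

set_option autoImplicit false

namespace Pool.Agent.Y357.C33

open Finset Filter Topology

/-- There are `0 < δ < 1` such that for all large `s` there is a prime in
`[s - 3 s ^ (1 - δ), s]`. -/
theorem exists_prime_short : ∃ δ : ℝ, 0 < δ ∧ δ < 1 ∧ ∀ᶠ s : ℝ in atTop, ∃ p : ℕ, p.Prime ∧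
    (p : ℝ) ≤ s ∧ s - 3 * s ^ (1 - δ) ≤ p := by
  obtain ⟨δ, η, hδ0, hδ1, hη, X₀, -, hX⟩ := Pool.Agent.H295R3.D.hoheisel
  refine ⟨δ, hδ0, hδ1, ?_⟩
  have hlim : Tendsto (fun s : ℝ => s ^ (1 - δ) / s) atTop (𝓝 0) := by
    have h1 : Tendsto (fun s : ℝ => s ^ (-δ)) atTop (𝓝 0) := tendsto_rpow_neg_atTop hδ0
    refine h1.congr' ?_
    filter_upwards [eventually_gt_atTop 0] with s hs
    rw [show (1 - δ) = -δ + 1 by ring, Real.rpow_add_one hs.ne']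
    field_simp
  filter_upwards [hlim.eventually (gt_mem_nhds (show (0 : ℝ) < 1 / 10 by norm_num)),
    eventually_ge_atTop (20 : ℝ), eventually_ge_atTop (2 * (X₀ : ℝ) + 20)] with s hs1 hs2 hs3
  have hs0 : 0 < s := by linarith
  set r : ℝ := s ^ (1 - δ) with hr
  have hr1 : 1 ≤ r := Real.one_le_rpow (by linarith) (by linarith)
  have hr2 : r < s / 10 := by
    rw [div_lt_iff₀ hs0] at hs1
    linarith
  set Y : ℕ := ⌈r⌉₊ with hY
  have hY1 : r ≤ Y := Nat.le_ceil _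
  have hY2 : (Y : ℝ) < r + 1 := Nat.ceil_lt_add_one (by linarith)
  set T : ℕ := ⌊s⌋₊ with hT
  have hT1 : (T : ℝ) ≤ s := Nat.floor_le hs0.le
  have hT2 : s < T + 1 := Nat.lt_floor_add_one s
  have hYT : Y ≤ T := by
    have : (Y : ℝ) ≤ T := by linarith
    exact_mod_cast this
  obtain ⟨X, hXT⟩ : ∃ X : ℕ, X + Y = T := ⟨T - Y, by omega⟩
  have hXr : (X : ℝ) = T - Y := by rw [← hXT]; push_cast; ring
  have hX0 : X₀ ≤ X := by
    have : (X₀ : ℝ) ≤ X := by rw [hXr]; linarith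
    exact_mod_cast this
  have hXs : (X : ℝ) ≤ s := by rw [hXr]; have : (0 : ℝ) ≤ Y := by positivity
                               linarith
  have hYX : Y ≤ X := by
    have : (Y : ℝ) ≤ X := by rw [hXr]; linarith
    exact_mod_cast this
  have hpow : (X : ℝ) ^ (1 - δ) ≤ Y := by
    refine le_trans ?_ hY1
    exact Real.rpow_le_rpow (by positivity) hXs (by linarith)
  have hcount := hX X Y hX0 hpow hYX
  have hXpos : (1 : ℝ) < X := by rw [hXr]; linarith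
  have hpos : 0 < η * Y / Real.log X := by
    have h1 : 0 < Real.log X := Real.log_pos hXpos
    have h2 : (0 : ℝ) < Y := by linarith
    positivity
  have hcard : 0 < (((Ioc X (X + Y)).filter Nat.Prime).card : ℝ) := lt_of_lt_of_le hpos hcount
  have hcard' : 0 < ((Ioc X (X + Y)).filter Nat.Prime).card := by exact_mod_cast hcard
  obtain ⟨p, hp⟩ := Finset.card_pos.1 hcard'
  rw [mem_filter, mem_Ioc, hXT] at hp
  refine ⟨p, hp.2, ?_, ?_⟩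
  · have : (p : ℝ) ≤ T := by exact_mod_cast hp.1.2
    linarith
  · have : (X : ℝ) ≤ p := by exact_mod_cast hp.1.1.le
    rw [hXr] at this
    linarith

theorem F_lower (p n : ℕ) (hp : p.Prime) (hn : p ^ 3 ≤ n) : p ^ 2 - p ≤ F 3 n := by
  haveI : Fact p.Prime := ⟨hp⟩
  obtain ⟨A, hA, hC, hcard⟩ := Pool.Agent.H966R3.C33.exists_set p
  refine hcard.trans (le_F (hA.trans ?_) hC)
  apply Finset.Icc_subset_Icc le_rfl
  have h1 : (p ^ 2 + 1) * (p - 1) ≤ p ^ 3 := by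
    obtain ⟨q, rfl⟩ : ∃ q, p = q + 1 := ⟨p - 1, by have := hp.pos; omega⟩
    simp only [Nat.add_sub_cancel]
    nlinarith
  exact_mod_cast h1.trans hn

theorem lower_bound : ∃ δ : ℝ, 0 < δ ∧ δ < 1 ∧ ∀ᶠ n : ℕ in atTop,
    (n : ℝ) ^ (2 / 3 : ℝ) - 7 * (n : ℝ) ^ (2 / 3 - δ / 3 : ℝ) ≤ F 3 n := by
  obtain ⟨δ, hδ0, hδ1, h⟩ := exists_prime_short
  refine ⟨δ, hδ0, hδ1, ?_⟩
  have hroot : Tendsto (fun n : ℕ => (n : ℝ) ^ (1 / 3 : ℝ)) atTop atTop :=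
    (tendsto_rpow_atTop (by norm_num)).comp tendsto_natCast_atTop_atTop
  have hlim : Tendsto (fun s : ℝ => s ^ (-δ)) atTop (𝓝 0) := tendsto_rpow_neg_atTop hδ0
  filter_upwards [hroot.eventually h, hroot.eventually (eventually_ge_atTop 1),
    hroot.eventually (hlim.eventually (gt_mem_nhds (show (0 : ℝ) < 1 / 3 by norm_num))),
    eventually_ge_atTop 1] with n hn1 hn2 hn3 hn4
  have hn0 : (0 : ℝ) < n := by exact_mod_cast hn4
  have e1 : (n : ℝ) ^ (2 / 3 : ℝ) = ((n : ℝ) ^ (1 / 3 : ℝ)) ^ 2 := by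
    rw [← Real.rpow_natCast, ← Real.rpow_mul hn0.le]
    norm_num
  have hs3 : ((n : ℝ) ^ (1 / 3 : ℝ)) ^ 3 = n := by
    rw [← Real.rpow_natCast, ← Real.rpow_mul hn0.le]
    norm_num
  have e2 : (n : ℝ) ^ (2 / 3 - δ / 3 : ℝ) =
      (n : ℝ) ^ (1 / 3 : ℝ) * ((n : ℝ) ^ (1 / 3 : ℝ)) ^ (1 - δ) := by
    rw [← Real.rpow_mul hn0.le, ← Real.rpow_add hn0]
    congr 1
    ring
  rw [e1, e2]
  have hpos : (0 : ℝ) < (n : ℝ) ^ (1 / 3 : ℝ) := by positivity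
  generalize hsdef : (n : ℝ) ^ (1 / 3 : ℝ) = s at *
  obtain ⟨p, hp, hp1, hp2⟩ := hn1
  have hr3 : 3 * s ^ (1 - δ) ≤ s := by
    have : s ^ (1 - δ) = s ^ (-δ) * s := by
      rw [← Real.rpow_add_one hpos.ne']
      congr 1
      ring
    rw [this]
    nlinarith
  have hr1 : 1 ≤ s ^ (1 - δ) := Real.one_le_rpow hn2 (by linarith)
  generalize s ^ (1 - δ) = r at *
  have hp0 : (0 : ℝ) ≤ p := by positivity
  have hcube : p ^ 3 ≤ n := by
    have : (p : ℝ) ^ 3 ≤ n := by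
      rw [← hs3]
      exact pow_le_pow_left₀ hp0 hp1 3
    exact_mod_cast this
  have hF := F_lower p n hp hcube
  have hF' : (p : ℝ) ^ 2 - p ≤ F 3 n := by
    have h1 : p ≤ p ^ 2 := Nat.le_self_pow (by norm_num) p
    have h2 : ((p ^ 2 - p : ℕ) : ℝ) ≤ F 3 n := by exact_mod_cast hF
    rw [Nat.cast_sub h1] at h2
    push_cast at h2
    exact h2
  have h1 : (s - 3 * r) ^ 2 ≤ (p : ℝ) ^ 2 := pow_le_pow_left₀ (by linarith) hp2 2
  have h2 : s ≤ s * r := by nlinarith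
  nlinarith [sq_nonneg r]

/-- `F 3 n = n ^ (2/3) + O(n ^ (2/3 - δ))`. -/
theorem power_saving : ∃ δ C : ℝ, 0 < δ ∧ ∀ n : ℕ, 1 ≤ n →
    |(F 3 n : ℝ) - (n : ℝ) ^ (2 / 3 : ℝ)| ≤ C * (n : ℝ) ^ (2 / 3 - δ : ℝ) := by
  obtain ⟨δ, hδ0, hδ1, h⟩ := lower_bound
  obtain ⟨n₀, hn₀⟩ := eventually_atTop.1 h
  refine ⟨min (δ / 3) (1 / 9), 18 + n₀, lt_min (by linarith) (by norm_num), ?_⟩
  intro n hn
  have hn1 : (1 : ℝ) ≤ n := by exact_mod_cast hn
  have hn0 : (0 : ℝ) < n := by linarith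
  set d : ℝ := min (δ / 3) (1 / 9) with hd
  have hd1 : d ≤ δ / 3 := min_le_left _ _
  have hd2 : d ≤ 1 / 9 := min_le_right _ _
  have hD : 1 ≤ (n : ℝ) ^ (2 / 3 - d) := Real.one_le_rpow hn1 (by linarith)
  have hu := F_le hn (le_refl 3)
  have hu' : (F 3 n : ℝ) ≤ (n : ℝ) ^ (2 / 3 : ℝ) + 11 * (n : ℝ) ^ (2 / 3 - d) := by
    have e : (((3 : ℕ) : ℝ) - 2) ^ (1 / 3 : ℝ) = 1 := by norm_num
    rw [e, one_mul] at hu
    have : (n : ℝ) ^ (5 / 9 : ℝ) ≤ (n : ℝ) ^ (2 / 3 - d) :=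
      Real.rpow_le_rpow_of_exponent_le hn1 (by linarith)
    linarith
  have hl' : (n : ℝ) ^ (2 / 3 : ℝ) - (7 + n₀) * (n : ℝ) ^ (2 / 3 - d) ≤ F 3 n := by
    have h0 : (0 : ℝ) ≤ n₀ := by positivity
    by_cases hc : n₀ ≤ n
    · have h1 := hn₀ n hc
      have h2 : (n : ℝ) ^ (2 / 3 - δ / 3) ≤ (n : ℝ) ^ (2 / 3 - d) :=
        Real.rpow_le_rpow_of_exponent_le hn1 (by linarith)
      have h3 : 0 ≤ (n₀ : ℝ) * (n : ℝ) ^ (2 / 3 - d) := by positivity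
      linarith
    · push Not at hc
      have h1 : (n : ℝ) ^ (2 / 3 : ℝ) ≤ n := by
        calc (n : ℝ) ^ (2 / 3 : ℝ) ≤ (n : ℝ) ^ (1 : ℝ) :=
              Real.rpow_le_rpow_of_exponent_le hn1 (by norm_num)
          _ = n := Real.rpow_one _
      have h2 : (n : ℝ) ≤ n₀ := by exact_mod_cast hc.le
      have h3 : (0 : ℝ) ≤ F 3 n := by positivity
      have h4 : (n₀ : ℝ) * 1 ≤ n₀ * (n : ℝ) ^ (2 / 3 - d) := mul_le_mul_of_nonneg_left hD h0
      have h5 : (0 : ℝ) ≤ 7 * (n : ℝ) ^ (2 / 3 - d) := by positivity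
      linarith
  rw [abs_le]
  have h3 : (0 : ℝ) ≤ n₀ * (n : ℝ) ^ (2 / 3 - d) := by positivity
  constructor
  · have h5 : (0 : ℝ) ≤ (n : ℝ) ^ (2 / 3 - d) := by positivity
    nlinarith
  · have h5 : (0 : ℝ) ≤ (n : ℝ) ^ (2 / 3 - d) := by positivity
    nlinarith

end Pool.Agent.Y357.C33
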